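import Mathlib
import Pool.Agent.R831.PermIdeal

/-!
Hankel matrices of variables, evaluation, and the degree of the elements of the permanental ideals.
-/

set_option autoImplicit false

namespace Pool.Agent.Helper55K9.HK

open Matrix Pool.Agent.R831.Perm Pool.Agent.R831.PermIdeal

/-- The `m × n` Hankel matrix of variables: the entry at `(i, j)` is the variable with the number
`i + j` (all numbers start with zero). -/
noncomputable def hankel (k : Type*) [Field k] (m n : ℕ) :
    Matrix (Fin m) (Fin n) (MvPolynomial (Fin (m + n - 1)) k) :=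
  Matrix.of fun i j => MvPolynomial.X ⟨i.val + j.val, by omega⟩

section

variable {k : Type*} [Field k] {m n : ℕ} {A : Type*} [CommRing A] [Algebra k A]

/-- evaluation at a sequence -/
noncomputable def ev (k : Type*) [Field k] (m n : ℕ) {A : Type*} [CommRing A] [Algebra k A]
    (Z : ℕ → A) : MvPolynomial (Fin (m + n - 1)) k →ₐ[k] A :=
  MvPolynomial.aeval fun v => Z v.val

lemma ev_hankel (Z : ℕ → A) (i : Fin m) (j : Fin n) :
    ev k m n Z (hankel k m n i j) = Z (i.val + j.val) := by
  simp [ev, hankel]

/-- the permanent with rows `r`, columns `c` of the Hankel matrix of a sequence -/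
def hperm {t : ℕ} (Z : ℕ → A) (r c : Fin t → ℕ) : A :=
  (Matrix.of fun i j => Z (r i + c j) : Matrix (Fin t) (Fin t) A).permanent

lemma map_permanent {ι R S : Type*} [Fintype ι] [DecidableEq ι] [CommRing R] [CommRing S]
    (f : R →+* S) (M : Matrix ι ι R) : f M.permanent = (M.map f).permanent := by
  unfold permanent
  rw [map_sum]
  refine Finset.sum_congr rfl fun σ _ => ?_
  rw [map_prod]
  rfl

lemma ev_perm {t : ℕ} (Z : ℕ → A) (r : Fin t → Fin m) (c : Fin t → Fin n) :
    ev k m n Z ((hankel k m n).submatrix r c).permanent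
      = hperm Z (fun i => (r i).val) (fun j => (c j).val) := by
  have := map_permanent (ev k m n Z).toRingHom ((hankel k m n).submatrix r c)
  refine this.trans ?_
  unfold hperm
  congr 1
  ext i j
  exact ev_hankel Z (r i) (c j)

/-- the ideal vanishes at a sequence if all permanents do -/
lemma ev_eq_zero {t : ℕ} (Z : ℕ → A)
    (h : ∀ (r : Fin t ↪o Fin m) (c : Fin t ↪o Fin n),
      hperm Z (fun i => (r i).val) (fun j => (c j).val) = 0)
    {f : MvPolynomial (Fin (m + n - 1)) k} (hf : f ∈ permIdeal t (hankel k m n)) :
    ev k m n Z f = 0 := by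
  have : permIdeal t (hankel k m n) ≤ RingHom.ker (ev k m n Z).toRingHom := by
    unfold permIdeal
    rw [Ideal.span_le]
    rintro _ ⟨r, c, rfl⟩
    rw [SetLike.mem_coe, RingHom.mem_ker]
    exact (ev_perm Z r c).trans (h r c)
  exact this hf

/-- the elements of the ideal have no terms of degree less than `t` -/
lemma dvd_of_mem {t : ℕ} (Z : ℕ → k) {f : MvPolynomial (Fin (m + n - 1)) k}
    (hf : f ∈ permIdeal t (hankel k m n)) :
    (Polynomial.X : Polynomial k) ^ t ∣
      ev k m n (fun l => Polynomial.C (Z l) * Polynomial.X) f := by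
  have : permIdeal t (hankel k m n) ≤
      (Ideal.span {(Polynomial.X : Polynomial k) ^ t}).comap
        (ev k m n (fun l => Polynomial.C (Z l) * Polynomial.X)).toRingHom := by
    unfold permIdeal
    rw [Ideal.span_le]
    rintro _ ⟨r, c, rfl⟩
    rw [SetLike.mem_coe, Ideal.mem_comap, Ideal.mem_span_singleton]
    have h1 := ev_perm (k := k) (m := m) (n := n)
      (fun l => Polynomial.C (Z l) * Polynomial.X) r c
    refine h1.symm ▸ ?_
    unfold hperm permanent
    refine Finset.dvd_sum fun σ _ => ?_
    simp only [of_apply]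
    rw [Finset.prod_mul_distrib]
    rw [Finset.prod_const, Finset.card_univ, Fintype.card_fin]
    exact Dvd.intro_left _ rfl
  exact Ideal.mem_span_singleton.1 (this hf)

end

end Pool.Agent.Helper55K9.HK
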