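import Mathlib
import Pool.Agent.Helper55K9.HK.Basic

/-!
`P_t` of an `m × n` Hankel matrix is not prime if `n ≥ 2t - 1`, `t ≥ 3`.
-/

set_option autoImplicit false

namespace Pool.Agent.Helper55K9.HK.Big

open Matrix Pool.Agent.R831.Perm Pool.Agent.R831.PermIdeal

section seq

variable {A : Type*} [CommRing A]

/-- the sequence `z_{t-2} = 1, z_{t-1} = α, z_{2t-3} = β, z_{2t-2} = -2αβ` -/
def Z (t : ℕ) (α β : A) (l : ℕ) : A :=
  if l = t - 2 then 1 else if l = t - 1 then α else if l = 2 * t - 3 then β else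
    if l = 2 * t - 2 then -(2 * α * β) else 0

variable {t : ℕ} (ht : 3 ≤ t) {α β : A} (hα : α * α = 0) (hβ : β * β = 0)

lemma Z0 (α β : A) : Z t α β (t - 2) = 1 := by simp [Z]

include ht in
lemma Z1 (α β : A) : Z t α β (t - 1) = α := by
  unfold Z
  rw [if_neg (by omega), if_pos rfl]

include ht in
lemma Z2 (α β : A) : Z t α β (2 * t - 3) = β := by
  unfold Z
  rw [if_neg (by omega), if_neg (by omega), if_pos rfl]

include ht in
lemma Z3 (α β : A) : Z t α β (2 * t - 2) = -(2 * α * β) := by
  unfold Z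
  rw [if_neg (by omega), if_neg (by omega), if_neg (by omega), if_pos rfl]

lemma Z_ne {l : ℕ} (h : Z t α β l ≠ 0) :
    l = t - 2 ∨ l = t - 1 ∨ l = 2 * t - 3 ∨ l = 2 * t - 2 := by
  unfold Z at h
  by_contra hc
  push Not at hc
  obtain ⟨h1, h2, h3, h4⟩ := hc
  rw [if_neg h1, if_neg h2, if_neg h3, if_neg h4] at h
  exact h rfl

/-- `α` divides -/
lemma dvdα {l : ℕ} (ht : 3 ≤ t) (h : l = t - 1 ∨ l = 2 * t - 2) : α ∣ Z t α β l := by
  rcases h with rfl | rfl
  · rw [Z1 ht]
  · rw [Z3 ht]
    exact ⟨-(2 * β), by ring⟩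

lemma dvdβ {l : ℕ} (ht : 3 ≤ t) (h : l = 2 * t - 3 ∨ l = 2 * t - 2) : β ∣ Z t α β l := by
  rcases h with rfl | rfl
  · rw [Z2 ht]
  · rw [Z3 ht]
    exact ⟨-(2 * α), by ring⟩

variable {ι : Type*} [Fintype ι] [DecidableEq ι]

lemma prod_zero_of_two {γ : A} (hγ : γ * γ = 0) (f : ι → A) (i j : ι) (hij : i ≠ j)
    (hi : γ ∣ f i) (hj : γ ∣ f j) : ∏ l, f l = 0 := by
  have h1 : f i * f j ∣ ∏ l, f l := by
    rw [← Finset.mul_prod_erase _ _ (Finset.mem_univ i)]
    exact mul_dvd_mul_left _ (Finset.dvd_prod_of_mem f (Finset.mem_erase.2 ⟨hij.symm, Finset.mem_univ j⟩))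
  obtain ⟨a, ha⟩ := hi
  obtain ⟨b, hb⟩ := hj
  obtain ⟨c, hc⟩ := h1
  rw [hc, ha, hb]
  calc γ * a * (γ * b) * c = (γ * γ) * (a * b * c) := by ring
    _ = 0 := by rw [hγ, zero_mul]

include ht hα hβ in
/-- if a product of values is not zero, the sum of the indices is small, and if it is not very
small, then both `α` and `β` occur -/
lemma classify (e : ι → ℕ) (h : ∏ i, Z t α β (e i) ≠ 0) :
    ∑ i, e i ≤ Fintype.card ι * (t - 2) + t ∧
      (∑ i, e i = Fintype.card ι * (t - 2) + t →
        (∃ i₀, e i₀ = 2 * t - 2 ∧ ∀ i, i ≠ i₀ → e i = t - 2) ∨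
        ∃ i₁ i₂, i₁ ≠ i₂ ∧ e i₁ = t - 1 ∧ e i₂ = 2 * t - 3 ∧ ∀ i, i ≠ i₁ → i ≠ i₂ → e i = t - 2) := by
  have hne : ∀ i, e i = t - 2 ∨ e i = t - 1 ∨ e i = 2 * t - 3 ∨ e i = 2 * t - 2 := fun i =>
    Z_ne (fun h0 => h (Finset.prod_eq_zero (Finset.mem_univ i) h0))
  let a : ι → ℕ := fun i => if e i = t - 1 ∨ e i = 2 * t - 2 then 1 else 0
  let b : ι → ℕ := fun i => if e i = 2 * t - 3 ∨ e i = 2 * t - 2 then 1 else 0
  have hab : ∀ i, e i = (t - 2) + a i + (t - 1) * b i := by
    intro i
    simp only [a, b]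
    rcases hne i with h1 | h1 | h1 | h1
    · rw [if_neg (by omega), if_neg (by omega), mul_zero]; omega
    · rw [if_pos (by omega), if_neg (by omega), mul_zero]; omega
    · rw [if_neg (by omega), if_pos (by omega), mul_one]; omega
    · rw [if_pos (by omega), if_pos (by omega), mul_one]; omega
  have ha2 : ∀ i j, i ≠ j → a i = 0 ∨ a j = 0 := by
    intro i j hij
    by_contra hc
    push Not at hc
    refine h (prod_zero_of_two hα _ i j hij (dvdα ht ?_) (dvdα ht ?_))
    · by_contra h1; exact hc.1 (if_neg h1)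
    · by_contra h1; exact hc.2 (if_neg h1)
  have hb2 : ∀ i j, i ≠ j → b i = 0 ∨ b j = 0 := by
    intro i j hij
    by_contra hc
    push Not at hc
    refine h (prod_zero_of_two hβ _ i j hij (dvdβ ht ?_) (dvdβ ht ?_))
    · by_contra h1; exact hc.1 (if_neg h1)
    · by_contra h1; exact hc.2 (if_neg h1)
  have key : ∀ (a : ι → ℕ), (∀ i, a i ≤ 1) → (∀ i j, i ≠ j → a i = 0 ∨ a j = 0) →
      (∀ i, a i = 0) ∨ ∃ i, a i = 1 ∧ ∀ j, j ≠ i → a j = 0 := by
    intro a h1 h2
    by_cases hz : ∀ i, a i = 0
    · exact Or.inl hz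
    · push Not at hz
      obtain ⟨i, hi⟩ := hz
      refine Or.inr ⟨i, by have := h1 i; omega, fun j hj => ?_⟩
      rcases h2 j i hj with h3 | h3
      · exact h3
      · exact absurd h3 hi
  have ha1 : ∀ i, a i ≤ 1 := fun i => by simp only [a]; split <;> omega
  have hb1 : ∀ i, b i ≤ 1 := fun i => by simp only [b]; split <;> omega
  have hsum : ∑ i, e i = Fintype.card ι * (t - 2) + ∑ i, a i + (t - 1) * ∑ i, b i := by
    rw [Finset.sum_congr rfl fun i _ => hab i, Finset.sum_add_distrib, Finset.sum_add_distrib,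
      Finset.sum_const, Finset.card_univ, smul_eq_mul, Finset.mul_sum]
  have hsa : ∀ (a : ι → ℕ), ((∀ i, a i = 0) ∨ ∃ i, a i = 1 ∧ ∀ j, j ≠ i → a j = 0) →
      ∑ i, a i ≤ 1 := by
    rintro a (h1 | ⟨i, h1, h2⟩)
    · rw [Finset.sum_eq_zero fun i _ => h1 i]; omega
    · rw [Fintype.sum_eq_single i h2, h1]
  have hA := key a ha1 ha2
  have hB := key b hb1 hb2
  have hA1 := hsa a hA
  have hB1 := hsa b hB
  constructor
  · rw [hsum]
    have : (t - 1) * ∑ i, b i ≤ (t - 1) * 1 := Nat.mul_le_mul_left _ hB1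
    omega
  · intro heq
    rw [hsum] at heq
    rcases hB with hB | ⟨i₂, hB, hB'⟩
    · rw [Finset.sum_eq_zero fun i _ => hB i, mul_zero] at heq
      omega
    · rcases hA with hA | ⟨i₁, hA, hA'⟩
      · rw [Finset.sum_eq_zero fun i _ => hA i] at heq
        have : (t - 1) * ∑ i, b i ≤ (t - 1) * 1 := Nat.mul_le_mul_left _ hB1
        omega
      · by_cases h12 : i₁ = i₂
        · subst h12
          left
          refine ⟨i₁, ?_, fun i hi => ?_⟩
          · rw [hab, hA, hB]; omega
          · rw [hab, hA' i hi, hB' i hi, mul_zero]; omega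
        · right
          refine ⟨i₁, i₂, h12, ?_, ?_, fun i h1 h2 => ?_⟩
          · rw [hab, hA, hB' i₁ h12, mul_zero]; omega
          · rw [hab, hB, hA' i₂ (Ne.symm h12)]; omega
          · rw [hab, hA' i h1, hB' i h2, mul_zero]; omega

end seq

/-! ### the three permutations -/

section perms

variable {t : ℕ} (ht : 3 ≤ t)

include ht

/-- the main permutation -/
def s0 : Equiv.Perm (Fin t) := Function.Involutive.toPerm
  (fun i : Fin t => if i.val = t - 1 then i else ⟨t - 2 - i.val, by omega⟩) (by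
    intro i
    apply Fin.ext
    dsimp only
    split_ifs with h1 h2 h3
    · rfl
    · simp only at h2 ⊢; omega
    · simp only; omega)

lemma s0_apply (i : Fin t) :
    (s0 ht i).val = if i.val = t - 1 then i.val else t - 2 - i.val := by
  unfold s0
  rw [Function.Involutive.coe_toPerm]
  split_ifs <;> rfl

def s1 : Equiv.Perm (Fin t) := s0 ht * Equiv.swap ⟨t - 1, by omega⟩ ⟨t - 2, by omega⟩

def s2 : Equiv.Perm (Fin t) := s0 ht * Equiv.swap ⟨t - 1, by omega⟩ ⟨0, by omega⟩

lemma s1_apply (i : Fin t) :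
    (s1 ht i).val = if i.val = t - 1 then 0 else if i.val = t - 2 then t - 1 else t - 2 - i.val := by
  unfold s1
  rw [Equiv.Perm.mul_apply, s0_apply]
  by_cases h1 : i.val = t - 1
  · have : i = ⟨t - 1, by omega⟩ := Fin.ext h1
    rw [this, Equiv.swap_apply_left]
    simp only
    split_ifs <;> omega
  · by_cases h2 : i.val = t - 2
    · have : i = ⟨t - 2, by omega⟩ := Fin.ext h2
      rw [this, Equiv.swap_apply_right]
      simp only
      split_ifs <;> omega
    · rw [Equiv.swap_apply_of_ne_of_ne (fun h => h1 (by rw [h])) (fun h => h2 (by rw [h]))]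
      split_ifs <;> omega

lemma s2_apply (i : Fin t) :
    (s2 ht i).val = if i.val = t - 1 then t - 2 else if i.val = 0 then t - 1 else t - 2 - i.val := by
  unfold s2
  rw [Equiv.Perm.mul_apply, s0_apply]
  by_cases h1 : i.val = t - 1
  · have : i = ⟨t - 1, by omega⟩ := Fin.ext h1
    rw [this, Equiv.swap_apply_left]
    simp only
    split_ifs <;> omega
  · by_cases h2 : i.val = 0
    · have : i = ⟨0, by omega⟩ := Fin.ext h2
      rw [this, Equiv.swap_apply_right]
      simp only
      split_ifs <;> omega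
    · rw [Equiv.swap_apply_of_ne_of_ne (fun h => h1 (by rw [h])) (fun h => h2 (by rw [h]))]
      split_ifs <;> omega

lemma s01 : s0 ht ≠ s1 ht := by
  intro h
  have h1 := s0_apply ht ⟨t - 1, by omega⟩
  rw [h, s1_apply] at h1
  simp only [if_true] at h1
  omega

lemma s02 : s0 ht ≠ s2 ht := by
  intro h
  have h1 := s0_apply ht ⟨t - 1, by omega⟩
  rw [h, s2_apply] at h1
  simp only [if_true] at h1
  omega

lemma s12 : s1 ht ≠ s2 ht := by
  intro h
  have h1 := s1_apply ht ⟨t - 1, by omega⟩
  rw [h, s2_apply] at h1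
  simp only [if_true] at h1
  omega

variable {A : Type*} [CommRing A] {α β : A} (hα : α * α = 0) (hβ : β * β = 0)

lemma prod0 : ∏ i, Z t α β ((s0 ht i).val + i.val) = -(2 * α * β) := by
  rw [Fintype.prod_eq_single (⟨t - 1, by omega⟩ : Fin t)]
  · rw [s0_apply]
    simp only [if_true]
    rw [show t - 1 + (t - 1) = 2 * t - 2 by omega, Z3 ht]
  · intro i hi
    have : i.val ≠ t - 1 := fun h => hi (Fin.ext h)
    rw [s0_apply, if_neg this, show t - 2 - i.val + i.val = t - 2 by omega, Z0]

lemma prod1 : ∏ i, Z t α β ((s1 ht i).val + i.val) = α * β := by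
  rw [Fintype.prod_eq_mul (⟨t - 1, by omega⟩ : Fin t) ⟨t - 2, by omega⟩
    (by intro h; rw [Fin.mk.injEq] at h; omega)]
  · rw [s1_apply, s1_apply]
    simp only [if_true]
    rw [if_neg (by omega), show 0 + (t - 1) = t - 1 by omega, Z1 ht,
      show t - 1 + (t - 2) = 2 * t - 3 by omega, Z2 ht]
  · rintro i ⟨h1, h2⟩
    have h1' : i.val ≠ t - 1 := fun h => h1 (Fin.ext h)
    have h2' : i.val ≠ t - 2 := fun h => h2 (Fin.ext h)
    rw [s1_apply, if_neg h1', if_neg h2', show t - 2 - i.val + i.val = t - 2 by omega, Z0]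

lemma prod2 : ∏ i, Z t α β ((s2 ht i).val + i.val) = α * β := by
  rw [Fintype.prod_eq_mul (⟨0, by omega⟩ : Fin t) ⟨t - 1, by omega⟩
    (by intro h; rw [Fin.mk.injEq] at h; omega)]
  · rw [s2_apply, s2_apply]
    simp only [if_true]
    rw [if_neg (by omega), show t - 1 + 0 = t - 1 by omega, Z1 ht,
      show t - 2 + (t - 1) = 2 * t - 3 by omega, Z2 ht]
  · rintro i ⟨h1, h2⟩
    have h1' : i.val ≠ 0 := fun h => h1 (Fin.ext h)
    have h2' : i.val ≠ t - 1 := fun h => h2 (Fin.ext h)
    rw [s2_apply, if_neg h2', if_neg h1', show t - 2 - i.val + i.val = t - 2 by omega, Z0]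

include hα hβ in
lemma perm_cases (σ : Equiv.Perm (Fin t)) (h : ∏ i, Z t α β ((σ i).val + i.val) ≠ 0) :
    σ = s0 ht ∨ σ = s1 ht ∨ σ = s2 ht := by
  have h1 := classify ht hα hβ _ h
  have hs : ∑ i, ((σ i).val + i.val) = Fintype.card (Fin t) * (t - 2) + t := by
    rw [Finset.sum_add_distrib, Equiv.sum_comp σ (fun i : Fin t => i.val), Fintype.card_fin,
      Fin.sum_univ_eq_sum_range (fun i => i) t]
    have := Finset.sum_range_id_mul_two t
    obtain ⟨u, rfl⟩ : ∃ u, t = u + 3 := ⟨t - 3, by omega⟩
    have e1 : u + 3 - 1 = u + 2 := by omega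
    have e2 : u + 3 - 2 = u + 1 := by omega
    rw [e1] at this
    rw [e2]
    nlinarith
  rcases h1.2 hs with ⟨i₀, h2, h3⟩ | ⟨i₁, i₂, h2, h3, h4, h5⟩
  · left
    have h6 : i₀.val = t - 1 := by
      have := (σ i₀).isLt; have := i₀.isLt; omega
    apply Equiv.ext
    intro i
    apply Fin.ext
    rw [s0_apply]
    by_cases hi : i = i₀
    · subst hi
      rw [if_pos h6]
      have := (σ i).isLt; omega
    · have h7 : i.val ≠ t - 1 := fun h => hi (Fin.ext (h.trans h6.symm))
      rw [if_neg h7]
      have := h3 i hi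
      omega
  · right
    have e1 := (σ i₁).isLt
    have e2 := (σ i₂).isLt
    have e3 := i₁.isLt
    have e4 := i₂.isLt
    have h6 : (i₂.val = t - 1 ∧ (σ i₂).val = t - 2) ∨ (i₂.val = t - 2 ∧ (σ i₂).val = t - 1) := by
      omega
    rcases h6 with ⟨h6, h7⟩ | ⟨h6, h7⟩
    · right
      -- the preimage of `t - 1`
      obtain ⟨j, hj⟩ := σ.surjective ⟨t - 1, by omega⟩
      have hj' : (σ j).val = t - 1 := by rw [hj]
      have hj2 : j ≠ i₂ := by rintro rfl; omega
      have hj1 : j = i₁ := by
        by_contra hc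
        have := h5 j hc hj2
        omega
      subst hj1
      have h8 : j.val = 0 := by omega
      apply Equiv.ext
      intro i
      apply Fin.ext
      rw [s2_apply]
      by_cases hi : i = i₂
      · subst hi
        rw [if_pos h6, h7]
      · have h9 : i.val ≠ t - 1 := fun h => hi (Fin.ext (h.trans h6.symm))
        rw [if_neg h9]
        by_cases hi' : i = j
        · subst hi'
          rw [if_pos h8, hj']
        · rw [if_neg fun h => hi' (Fin.ext (h.trans h8.symm))]
          have := h5 i hi' hi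
          omega
    · left
      have h8 : i₁.val = t - 1 := by
        by_contra hc
        have hl : (⟨t - 1, by omega⟩ : Fin t) ≠ i₁ := fun h => hc (by rw [← h])
        have hl2 : (⟨t - 1, by omega⟩ : Fin t) ≠ i₂ := fun h => by
          rw [← h] at h6; simp only at h6; omega
        have := h5 _ hl hl2
        simp only at this
        omega
      apply Equiv.ext
      intro i
      apply Fin.ext
      rw [s1_apply]
      by_cases hi : i = i₁
      · subst hi
        rw [if_pos h8]
        omega
      · have h9 : i.val ≠ t - 1 := fun h => hi (Fin.ext (h.trans h8.symm))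
        rw [if_neg h9]
        by_cases hi' : i = i₂
        · subst hi'
          rw [if_pos h6, h7]
        · rw [if_neg fun h => hi' (Fin.ext (h.trans h6.symm))]
          have := h5 i hi hi'
          omega

include hα hβ in
lemma sum_perms (s : Equiv.Perm (Fin t) → A) :
    ∑ σ : Equiv.Perm (Fin t), s σ * ∏ i, Z t α β ((σ i).val + i.val)
      = s (s0 ht) * -(2 * α * β) + s (s1 ht) * (α * β) + s (s2 ht) * (α * β) := by
  have h1 : ∑ σ : Equiv.Perm (Fin t), s σ * ∏ i, Z t α β ((σ i).val + i.val)
      = ∑ σ ∈ {s0 ht, s1 ht, s2 ht}, s σ * ∏ i, Z t α β ((σ i).val + i.val) := by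
    symm
    apply Finset.sum_subset (Finset.subset_univ _)
    intro σ _ hσ
    by_contra hc
    rw [Finset.mem_insert, Finset.mem_insert, Finset.mem_singleton] at hσ
    exact hσ (perm_cases ht hα hβ σ (right_ne_zero_of_mul hc))
  rw [h1, Finset.sum_insert, Finset.sum_insert, Finset.sum_singleton, prod0, prod1, prod2]
  · ring
  · rw [Finset.mem_singleton]; exact s12 ht
  · rw [Finset.mem_insert, Finset.mem_singleton]
    rintro (h | h)
    · exact s01 ht h
    · exact s02 ht h

include hα hβ in
lemma perm_full : (Matrix.of fun i j : Fin t => Z t α β (i.val + j.val)).permanent = 0 := by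
  unfold permanent
  have := sum_perms ht hα hβ (fun _ => (1 : A))
  simp only [one_mul] at this
  simp only [of_apply]
  rw [this]
  ring

include hα hβ in
lemma det_full : (Matrix.of fun i j : Fin t => Z t α β (i.val + j.val)).det
    = ((Equiv.Perm.sign (s0 ht) : ℤ) : A) * -(4 * α * β) := by
  rw [det_apply']
  simp only [of_apply]
  rw [sum_perms ht hα hβ (fun σ => ((Equiv.Perm.sign σ : ℤ) : A))]
  have h1 : Equiv.Perm.sign (s1 ht) = -Equiv.Perm.sign (s0 ht) := by
    unfold s1
    rw [map_mul, Equiv.Perm.sign_swap (by intro h; rw [Fin.mk.injEq] at h; omega)]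
    simp
  have h2 : Equiv.Perm.sign (s2 ht) = -Equiv.Perm.sign (s0 ht) := by
    unfold s2
    rw [map_mul, Equiv.Perm.sign_swap (by intro h; rw [Fin.mk.injEq] at h; omega)]
    simp
  rw [h1, h2]
  push_cast
  ring

/-- all permanents vanish -/
lemma hperm_zero (hα : α * α = 0) (hβ : β * β = 0) (r c : Fin t → ℕ) (hr : StrictMono r)
    (hc : StrictMono c) : hperm (Z t α β) r c = 0 := by
  have hle : ∀ (r : Fin t → ℕ), StrictMono r → ∀ i, i.val ≤ r i := by
    intro r hr i
    obtain ⟨i, hi⟩ := i
    induction i with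
    | zero => exact Nat.zero_le _
    | succ i ih =>
      have h1 := ih (by omega)
      have h2 : r ⟨i, by omega⟩ < r ⟨i + 1, hi⟩ := hr (by simp [Fin.lt_def])
      simp only at h1 ⊢
      omega
  have hsum0 : 2 * ∑ i : Fin t, i.val = t * (t - 2) + t := by
    rw [Fin.sum_univ_eq_sum_range (fun i => i) t]
    have := Finset.sum_range_id_mul_two t
    obtain ⟨u, rfl⟩ : ∃ u, t = u + 3 := ⟨t - 3, by omega⟩
    have e1 : u + 3 - 1 = u + 2 := by omega
    have e2 : u + 3 - 2 = u + 1 := by omega
    rw [e1] at this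
    rw [e2]
    nlinarith
  by_cases hid : (∀ i, r i = i.val) ∧ ∀ i, c i = i.val
  · unfold hperm
    have : (Matrix.of fun i j => Z t α β (r i + c j) : Matrix (Fin t) (Fin t) A)
        = Matrix.of fun i j : Fin t => Z t α β (i.val + j.val) := by
      ext i j
      simp only [of_apply]
      rw [hid.1, hid.2]
    rw [this]
    exact perm_full ht hα hβ
  · unfold hperm permanent
    refine Finset.sum_eq_zero fun σ _ => ?_
    by_contra hne
    simp only [of_apply] at hne
    have h1 := (classify ht hα hβ _ hne).1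
    rw [Fintype.card_fin, Finset.sum_add_distrib, Equiv.sum_comp σ r] at h1
    apply hid
    have hrs : ∑ i : Fin t, i.val ≤ ∑ i, r i := Finset.sum_le_sum fun i _ => hle r hr i
    have hcs : ∑ i : Fin t, i.val ≤ ∑ i, c i := Finset.sum_le_sum fun i _ => hle c hc i
    have hr2 : ∑ i : Fin t, i.val = ∑ i, r i := by omega
    have hc2 : ∑ i : Fin t, i.val = ∑ i, c i := by omega
    refine ⟨fun i => ?_, fun i => ?_⟩
    · exact ((Finset.sum_eq_sum_iff_of_le fun i _ => hle r hr i).1 hr2 i (Finset.mem_univ i)).symm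
    · exact ((Finset.sum_eq_sum_iff_of_le fun i _ => hle c hc i).1 hc2 i (Finset.mem_univ i)).symm

end perms

/-! ### a ring -/

section ring

variable (k : Type*) [Field k]

abbrev DD := DualNumber (DualNumber k)

def al : DD k := TrivSqZeroExt.inl DualNumber.eps
def be : DD k := DualNumber.eps

lemma al_sq : al k * al k = 0 := by
  unfold al
  rw [← TrivSqZeroExt.inl_mul, DualNumber.eps_mul_eps, TrivSqZeroExt.inl_zero]

lemma be_sq : be k * be k = 0 := DualNumber.eps_mul_eps

lemma al_be : ((4 : k) ≠ 0) → 4 * al k * be k ≠ 0 := by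
  intro h4 h
  have h1 : TrivSqZeroExt.snd (TrivSqZeroExt.snd (algebraMap k (DD k) 4 * al k * be k)) = 4 := by
    have h5 : algebraMap k (DD k) 4 = TrivSqZeroExt.inl (TrivSqZeroExt.inl (4 : k)) := rfl
    rw [h5]
    unfold al be DualNumber.eps
    rw [← TrivSqZeroExt.inl_mul, TrivSqZeroExt.inl_mul_inr, TrivSqZeroExt.snd_inr,
      TrivSqZeroExt.inl_mul_inr, smul_eq_mul, mul_one, smul_eq_mul, mul_one,
      TrivSqZeroExt.snd_inr]
  have h6 : algebraMap k (DD k) 4 = 4 := map_ofNat _ 4
  rw [h6, h] at h1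
  exact h4 h1.symm

end ring

/-! ### the theorem -/

theorem not_prime (k : Type*) [Field k] (h2 : (2 : k) ≠ 0) (m n t : ℕ) (ht : 3 ≤ t) (hm : t ≤ m)
    (hn : 2 * t - 1 ≤ n) : ¬ (permIdeal t (hankel k m n)).IsPrime := by
  classical
  intro hP
  set I := permIdeal t (hankel k m n) with hI
  -- the columns `t, …, 2t - 2` and one more column
  let s : Fin t := ⟨t - 1, by omega⟩
  let r : Fin t ↪ Fin m := ⟨fun i => ⟨i.val, by omega⟩, fun a b h => Fin.ext (by
    rw [Fin.mk.injEq] at h; exact h)⟩
  let c : Fin t → Fin n := fun j => if h : j.val = t - 1 then ⟨0, by omega⟩ else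
    ⟨t + j.val, by omega⟩
  let N : Matrix (Fin t) (Fin t) (MvPolynomial (Fin (m + n - 1)) k) :=
    (hankel k m n).submatrix r c
  let q : Fin t → MvPolynomial (Fin (m + n - 1)) k := fun i => cof N i s
  let Y : Matrix (Fin t) (Fin t) (MvPolynomial (Fin (m + n - 1)) k) :=
    (hankel k m n).submatrix r (fun j => ⟨j.val, by omega⟩)
  -- step 1
  have step1 : ∀ j, (q ᵥ* Y) j ∈ I := by
    intro j
    have h1 : (q ᵥ* Y) j = (N.updateCol s fun i => Y i j).permanent := by
      rw [perm_updateCol_eq]
      simp only [Matrix.vecMul, dotProduct, q]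
      exact Finset.sum_congr rfl fun i _ => mul_comm _ _
    rw [h1]
    let cs : Fin t ↪ Fin n := ⟨fun l => if h : l.val = t - 1 then ⟨j.val, by omega⟩ else
      ⟨t + l.val, by omega⟩, fun a b hab => by
        by_cases ha : a.val = t - 1
        · by_cases hb : b.val = t - 1
          · exact Fin.ext (ha.trans hb.symm)
          · simp only [dif_pos ha, dif_neg hb, Fin.mk.injEq] at hab
            have := j.isLt
            omega
        · by_cases hb : b.val = t - 1
          · simp only [dif_neg ha, dif_pos hb, Fin.mk.injEq] at hab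
            have := j.isLt
            omega
          · simp only [dif_neg ha, dif_neg hb, Fin.mk.injEq] at hab
            exact Fin.ext (by omega)⟩
    have h2 : (N.updateCol s fun i => Y i j) = (hankel k m n).submatrix r cs := by
      ext i l
      by_cases hl : l = s
      · subst hl
        rw [updateCol_self]
        simp [Y, cs, s]
      · have hl' : l.val ≠ t - 1 := fun h => hl (Fin.ext h)
        rw [updateCol_ne hl]
        simp [N, c, cs, hl']
    rw [h2]
    exact mem_permIdeal _ r cs
  -- step 2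
  have step2 : ∀ i, Y.det * q i ∈ I := by
    intro i
    have h1 : Y.det * q i = ((q ᵥ* Y) ᵥ* Y.adjugate) i := by
      rw [Matrix.vecMul_vecMul, Matrix.mul_adjugate, Matrix.vecMul_smul, Matrix.vecMul_one]
      rfl
    rw [h1]
    simp only [Matrix.vecMul, dotProduct]
    exact I.sum_mem fun j _ => I.mul_mem_right _ (step1 j)
  -- step 3
  have step3 : q ⟨0, by omega⟩ ∉ I := by
    intro hq
    have h1 := dvd_of_mem (k := k) (m := m) (n := n) (t := t)
      (fun l => if l = 2 * t - 1 then 1 else 0) hq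
    have h3 : ev k m n (fun l => Polynomial.C (if l = 2 * t - 1 then (1 : k) else 0)
        * Polynomial.X) (q ⟨0, by omega⟩) = Polynomial.X ^ (t - 1) := by
      have h4 := congrFun (congrFun (map_cof (ev k m n (fun l => Polynomial.C
        (if l = 2 * t - 1 then (1 : k) else 0) * Polynomial.X)).toRingHom N) ⟨0, by omega⟩) s
      refine h4.trans ?_
      unfold cof permanent
      -- only one permutation contributes
      let τ : Equiv.Perm (Fin t) := Function.Involutive.toPerm
        (fun i : Fin t => ⟨t - 1 - i.val, by omega⟩) (by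
          intro i; apply Fin.ext; simp only; omega)
      have hτ : ∀ i, (τ i).val = t - 1 - i.val := fun i => rfl
      rw [Finset.sum_eq_single τ]
      · rw [← Finset.mul_prod_erase _ _ (Finset.mem_univ s), updateCol_self]
        have h5 : τ s = ⟨0, by omega⟩ := Fin.ext (by rw [hτ]; simp [s])
        rw [h5, Pi.single_eq_same, one_mul]
        rw [Finset.prod_congr rfl (g := fun _ => (Polynomial.X : Polynomial k))]
        · rw [Finset.prod_const, Finset.card_erase_of_mem (Finset.mem_univ _), Finset.card_univ,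
            Fintype.card_fin]
        · intro i hi
          have hi' : i ≠ s := Finset.ne_of_mem_erase hi
          have hi2 : i.val ≠ t - 1 := fun h => hi' (Fin.ext h)
          rw [updateCol_ne hi', map_apply]
          have h6 : N (τ i) i = hankel k m n ⟨t - 1 - i.val, by omega⟩ ⟨t + i.val, by omega⟩ := by
            simp [N, r, c, hi2, hτ]
          rw [h6]
          refine (ev_hankel _ _ _).trans ?_
          simp only
          rw [if_pos (by omega), map_one, one_mul]
      · intro σ _ hσ
        by_contra hne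
        apply hσ
        have hne := Finset.prod_ne_zero_iff.1 hne
        apply Equiv.ext
        intro i
        apply Fin.ext
        rw [hτ]
        have h7 := hne i (Finset.mem_univ i)
        by_cases hi : i = s
        · rw [hi, updateCol_self] at h7
          have : σ s = ⟨0, by omega⟩ := by
            by_contra h8
            exact h7 (Pi.single_eq_of_ne h8 _)
          rw [hi, this]
          simp [s]
        · have hi2 : i.val ≠ t - 1 := fun h => hi (Fin.ext h)
          rw [updateCol_ne hi, map_apply] at h7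
          have h6 : N (σ i) i = hankel k m n ⟨(σ i).val, by omega⟩ ⟨t + i.val, by omega⟩ := by
            simp [N, r, c, hi2]
          rw [h6] at h7
          have h9 := (ev_hankel (k := k) (fun l => Polynomial.C (if l = 2 * t - 1 then (1 : k) else 0)
            * Polynomial.X) (⟨(σ i).val, by omega⟩ : Fin m) (⟨t + i.val, by omega⟩ : Fin n))
          have h10 := fun h0 => h7 (h9.trans h0)
          simp only at h10
          by_contra h11
          apply h10
          rw [if_neg (by omega), map_zero, zero_mul]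
      · intro h; exact absurd (Finset.mem_univ _) h
    rw [h3] at h1
    have h5 := Polynomial.degree_le_of_dvd h1 (pow_ne_zero _ Polynomial.X_ne_zero)
    rw [Polynomial.degree_X_pow, Polynomial.degree_X_pow] at h5
    have h6 : t ≤ t - 1 := by exact_mod_cast h5
    omega
  -- step 4
  have step4 : Y.det ∈ I := by
    rcases hP.mem_or_mem (step2 ⟨0, by omega⟩) with h | h
    · exact h
    · exact absurd h step3
  have h5 := ev_eq_zero (k := k) (m := m) (n := n) (Z t (al k) (be k)) (fun r c =>
    hperm_zero ht (al_sq k) (be_sq k) _ _ (fun a b h => r.strictMono h)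
      (fun a b h => c.strictMono h)) step4
  have h6 : ev k m n (Z t (al k) (be k)) Y.det
      = (Matrix.of fun i j : Fin t => Z t (al k) (be k) (i.val + j.val)).det := by
    have := RingHom.map_det (ev k m n (Z t (al k) (be k))).toRingHom Y
    refine this.trans ?_
    congr 1
    refine Matrix.ext fun i j => ?_
    exact ev_hankel (k := k) (m := m) (n := n) (Z t (al k) (be k)) (r i) ⟨j.val, by omega⟩
  rw [h6, det_full ht (al_sq k) (be_sq k)] at h5
  have h7 : (4 * al k * be k) = 0 := by
    rcases Int.units_eq_one_or (Equiv.Perm.sign (s0 ht)) with h | h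
    · rw [h] at h5
      simpa using h5
    · rw [h] at h5
      simpa using h5
  refine al_be k ?_ h7
  intro h
  apply h2
  have : (2 : k) * 2 = 0 := by rw [← h]; norm_num
  exact (mul_self_eq_zero.1 this)

end Pool.Agent.Helper55K9.HK.Big
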