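import Mathlib

/-!
# First and second derivatives of products, path products
-/

set_option autoImplicit false

namespace Pool.Agent.Helper55K9.HK.Ev

open Finset

section dsum

variable {ι S : Type*} [DecidableEq ι] [CommRing S]

/-- First derivative of the product of the `L r`, `r ∈ T`, in the direction `D`. -/
def d1 (T : Finset ι) (L D : ι → S) : S := ∑ r ∈ T, D r * ∏ r' ∈ T.erase r, L r'

/-- Mixed second derivative. -/
def d2 (T : Finset ι) (L a b : ι → S) : S :=
  ∑ r ∈ T, ∑ r' ∈ T.erase r, a r * b r' * ∏ r'' ∈ (T.erase r).erase r', L r''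

lemma d1_insert {T : Finset ι} {c : ι} (hc : c ∉ T) (L D : ι → S) :
    d1 (insert c T) L D = D c * ∏ r ∈ T, L r + L c * d1 T L D := by
  unfold d1
  rw [sum_insert hc, erase_insert hc, mul_sum]
  congr 1
  refine sum_congr rfl fun r hr => ?_
  have hrc : r ≠ c := fun h => hc (h ▸ hr)
  rw [erase_insert_of_ne hrc.symm, prod_insert (fun h => hc (mem_of_mem_erase h))]
  ring

lemma d2_insert {T : Finset ι} {c : ι} (hc : c ∉ T) (L a b : ι → S) :
    d2 (insert c T) L a b = a c * d1 T L b + b c * d1 T L a + L c * d2 T L a b := by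
  unfold d2
  rw [sum_insert hc, erase_insert hc]
  have h1 : ∀ r ∈ T, ∑ r' ∈ (insert c T).erase r, a r * b r' *
      ∏ r'' ∈ ((insert c T).erase r).erase r', L r'' =
      b c * (a r * ∏ r' ∈ T.erase r, L r') +
        L c * ∑ r' ∈ T.erase r, a r * b r' * ∏ r'' ∈ (T.erase r).erase r', L r'' := by
    intro r hr
    have hrc : c ≠ r := fun h => hc (h ▸ hr)
    have hc' : c ∉ T.erase r := fun h => hc (mem_of_mem_erase h)
    rw [erase_insert_of_ne hrc, sum_insert hc', erase_insert hc', mul_sum]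
    congr 1
    · ring
    · refine sum_congr rfl fun r' hr' => ?_
      have hrc' : c ≠ r' := fun h => hc' (h ▸ hr')
      rw [erase_insert_of_ne hrc', prod_insert (fun h => hc' (mem_of_mem_erase h))]
      ring
  rw [sum_congr rfl h1, sum_add_distrib, ← mul_sum, ← mul_sum, ← add_assoc]
  congr 2
  unfold d1
  rw [mul_sum]
  refine sum_congr rfl fun r' _ => ?_
  ring

lemma d1_union (T₁ T₂ : Finset ι) (h : Disjoint T₁ T₂) (L D : ι → S) :
    d1 (T₁ ∪ T₂) L D = d1 T₁ L D * ∏ r ∈ T₂, L r + (∏ r ∈ T₁, L r) * d1 T₂ L D := by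
  induction T₁ using Finset.induction_on with
  | empty => simp [d1]
  | insert c T hc ih =>
    rw [disjoint_insert_left] at h
    rw [insert_union, d1_insert (by rw [mem_union]; tauto), ih h.2, d1_insert hc,
      prod_union h.2, prod_insert hc]
    ring

lemma d2_union (T₁ T₂ : Finset ι) (h : Disjoint T₁ T₂) (L a b : ι → S) :
    d2 (T₁ ∪ T₂) L a b = d2 T₁ L a b * ∏ r ∈ T₂, L r + d1 T₁ L a * d1 T₂ L b +
      d1 T₁ L b * d1 T₂ L a + (∏ r ∈ T₁, L r) * d2 T₂ L a b := by
  induction T₁ using Finset.induction_on with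
  | empty => simp [d1, d2]
  | insert c T hc ih =>
    rw [disjoint_insert_left] at h
    rw [insert_union, d2_insert (by rw [mem_union]; tauto), ih h.2, d2_insert hc,
      d1_insert hc, d1_insert hc, prod_insert hc, d1_union T T₂ h.2, d1_union T T₂ h.2]
    ring

lemma d1_image {κ : Type*} [DecidableEq κ] (f : κ → ι) (hf : Function.Injective f)
    (T : Finset κ) (L D : ι → S) :
    d1 (T.image f) L D = d1 T (fun i => L (f i)) (fun i => D (f i)) := by
  unfold d1
  rw [sum_image (fun _ _ _ _ h => hf h)]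
  refine sum_congr rfl fun i _ => ?_
  rw [← image_erase hf, prod_image (fun _ _ _ _ h => hf h)]

/-- Multiplication by an element which annihilates `L i`. -/
lemma d1_mul_kill {T : Finset ι} {i : ι} (hi : i ∈ T) (L D : ι → S) (Λ : S)
    (h : L i * Λ = 0) : d1 T L D * Λ = D i * (∏ r ∈ T.erase i, L r) * Λ := by
  unfold d1
  rw [sum_mul, sum_eq_single i]
  · intro r hr hri
    rw [← mul_prod_erase (T.erase r) L (mem_erase.2 ⟨hri.symm, hi⟩)]
    linear_combination (D r * ∏ x ∈ (T.erase r).erase i, L x) * h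
  · exact fun h => absurd hi h

lemma prod_mul_kill {T : Finset ι} {i : ι} (hi : i ∈ T) (L : ι → S) (Λ : S)
    (h : L i * Λ = 0) : (∏ r ∈ T, L r) * Λ = 0 := by
  rw [← mul_prod_erase T L hi]
  linear_combination (∏ x ∈ T.erase i, L x) * h

lemma d1_congr {T : Finset ι} {L L' D D' : ι → S} (hL : ∀ r ∈ T, L r = L' r)
    (hD : ∀ r ∈ T, D r = D' r) : d1 T L D = d1 T L' D' := by
  unfold d1
  refine sum_congr rfl fun r hr => ?_
  rw [hD r hr, prod_congr rfl fun x hx => hL x (mem_of_mem_erase hx)]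

/-- If `e * L r = e * L' r`, then the same for the products. -/
lemma mul_prod_congr (e : S) {T : Finset ι} {L L' : ι → S} (h : ∀ r ∈ T, e * L r = e * L' r) :
    e * ∏ r ∈ T, L r = e * ∏ r ∈ T, L' r := by
  induction T using Finset.induction_on with
  | empty => simp
  | insert a T ha ih =>
    rw [prod_insert ha, prod_insert ha]
    have h1 := h a (mem_insert_self _ _)
    have h2 := ih fun i hi => h i (mem_insert_of_mem hi)
    linear_combination (∏ i ∈ T, L i) * h1 + L' a * h2

lemma mul_d1_congr (e : S) {T : Finset ι} {L L' D D' : ι → S}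
    (h : ∀ r ∈ T, e * L r = e * L' r) (hD : ∀ r ∈ T, e * D r = e * D' r) :
    e * d1 T L D = e * d1 T L' D' := by
  unfold d1
  rw [mul_sum, mul_sum]
  refine sum_congr rfl fun r hr => ?_
  have h1 := mul_prod_congr e (T := T.erase r) fun x hx => h x (mem_of_mem_erase hx)
  linear_combination (D r) * h1 + (∏ x ∈ T.erase r, L' x) * hD r hr

end dsum

section path

variable {S : Type*} [CommRing S] (Y : ℕ → S)

/-- The path product `∏ (- (Y j + Y (j+1)))`, `a ≤ j < b`. -/
def pth (a b : ℕ) : S := ∏ j ∈ Ico a b, (-(Y j + Y (j + 1)))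

variable {Y} (hY : ∀ j, Y j * Y j = 0)

include hY

lemma pth_mul {a b : ℕ} (hab : a ≤ b) : ∀ j, a ≤ j → j ≤ b →
    pth Y a b * Y j = (-1) ^ (b - a) * ∏ l ∈ Icc a b, Y l := by
  induction b, hab using Nat.le_induction with
  | base =>
    intro j h1 h2
    obtain rfl : j = a := by omega
    simp [pth]
  | succ b hab ih =>
    intro j h1 h2
    have e1 : pth Y a (b + 1) = pth Y a b * (-(Y b + Y (b + 1))) := by
      unfold pth
      rw [prod_Ico_succ_top hab]
    have e2 : ∏ l ∈ Icc a (b + 1), Y l = (∏ l ∈ Icc a b, Y l) * Y (b + 1) := by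
      rw [prod_Icc_succ_top (by omega)]
    have e3 : (-1 : S) ^ (b + 1 - a) = -(-1) ^ (b - a) := by
      rw [show b + 1 - a = (b - a) + 1 by omega, pow_succ]
      ring
    have e4 : (∏ l ∈ Icc a b, Y l) * Y b = 0 := by
      rw [← mul_prod_erase _ _ (mem_Icc.2 ⟨hab, le_rfl⟩)]
      linear_combination (∏ x ∈ (Icc a b).erase b, Y x) * hY b
    rw [e1, e2, e3]
    have ihb := ih b hab le_rfl
    rcases Nat.lt_or_ge b j with h | h
    · obtain rfl : j = b + 1 := by omega
      linear_combination (-Y (b + 1)) * ihb - (pth Y a b) * hY (b + 1)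
    · have ihj := ih j h1 h
      linear_combination (-(Y b + Y (b + 1))) * ihj - (-1) ^ (b - a) * e4

lemma pth_eq {a b : ℕ} (hab : a ≤ b) {i j : ℕ} (h1 : a ≤ i) (h2 : i ≤ b) (h3 : a ≤ j)
    (h4 : j ≤ b) : pth Y a b * Y i = pth Y a b * Y j := by
  rw [pth_mul hY hab i h1 h2, pth_mul hY hab j h3 h4]

lemma pth_sq {a b : ℕ} (hab : a ≤ b) {i j : ℕ} (h1 : a ≤ i) (h2 : i ≤ b) (h3 : a ≤ j)
    (h4 : j ≤ b) : pth Y a b * Y i * Y j = 0 := by
  rw [pth_eq hY hab h1 h2 h3 h4, mul_assoc, hY, mul_zero]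

end path

end Pool.Agent.Helper55K9.HK.Ev
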