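import Pool.Agent.Helper55K9.HK.Ev1

/-!
# The two cycles
-/

set_option autoImplicit false

namespace Pool.Agent.Helper55K9.HK.Ev

open Finset

variable {S : Type*} [CommRing S]

/-- The odd rows, without the corner. -/
def Ao (Y : ℕ → S) (m i : ℕ) : S :=
  if i = 0 then Y 0 - Y (m + 1) else -(Y (m + 1 - i) + Y (m + 2 - i))

/-- The even rows, without the last column. -/
def Bo (U : ℕ → S) (m i : ℕ) : S :=
  if i = 0 then U 0 + U 1 else if i = 1 then U 0 - U (m + 1) else -(U (m + 2 - i) + U (m + 3 - i))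

/-- The odd rows. -/
def Lo (Y U : ℕ → S) (m i : ℕ) : S := if i = m + 1 then Ao Y m i + U (m + 2) else Ao Y m i

/-- The even rows. -/
def Le (U : ℕ → S) (m i : ℕ) : S := if i = 0 ∨ i = 1 then Bo U m i - U (m + 2) else Bo U m i

section index

/-- Splitting `range (m+2)`. -/
lemma range_split (m : ℕ) : range (m + 2) = insert 0 (insert (m + 1) (Icc 1 m)) := by
  ext r
  simp only [mem_range, mem_insert, mem_Icc]
  omega

lemma range_split' (m : ℕ) : range (m + 2) = insert 0 (insert 1 (Icc 2 (m + 1))) := by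
  ext r
  simp only [mem_range, mem_insert, mem_Icc]
  omega

lemma erase0 (m : ℕ) : (range (m + 2)).erase 0 = insert (m + 1) (Icc 1 m) := by
  ext r
  simp only [mem_erase, mem_range, mem_insert, mem_Icc]
  omega

lemma erase0' (m : ℕ) : (range (m + 2)).erase 0 = insert 1 (Icc 2 (m + 1)) := by
  ext r
  simp only [mem_erase, mem_range, mem_insert, mem_Icc]
  omega

lemma erase1' (m : ℕ) : (range (m + 2)).erase 1 = insert 0 (Icc 2 (m + 1)) := by
  ext r
  simp only [mem_erase, mem_range, mem_insert, mem_Icc]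
  omega

lemma eraseL (m : ℕ) : (range (m + 2)).erase (m + 1) = insert 0 (Icc 1 m) := by
  ext r
  simp only [mem_erase, mem_range, mem_insert, mem_Icc]
  omega

lemma eraseM {m i : ℕ} (h1 : 1 ≤ i) (h2 : i ≤ m) :
    (range (m + 2)).erase i = insert 0 (insert (m + 1) ((Icc 1 m).erase i)) := by
  ext r
  simp only [mem_erase, mem_range, mem_insert, mem_Icc]
  omega

lemma eraseM' {m i : ℕ} (h1 : 2 ≤ i) (h2 : i ≤ m + 1) :
    (range (m + 2)).erase i = insert 0 (insert 1 ((Icc 2 (m + 1)).erase i)) := by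
  ext r
  simp only [mem_erase, mem_range, mem_insert, mem_Icc]
  omega

/-- Reversing the order in a product. -/
lemma prod_rev (T : Finset ℕ) (c : ℕ) (f : ℕ → S) (T' : Finset ℕ)
    (h1 : ∀ i ∈ T, i ≤ c ∧ c - i ∈ T') (h2 : ∀ j ∈ T', j ≤ c ∧ c - j ∈ T) :
    ∏ i ∈ T, f (c - i) = ∏ j ∈ T', f j := by
  refine prod_nbij' (fun i => c - i) (fun j => c - j) (fun i hi => (h1 i hi).2)
    (fun j hj => (h2 j hj).2) ?_ ?_ ?_
  · intro i hi
    have := (h1 i hi).1
    show c - (c - i) = i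
    omega
  · intro j hj
    have := (h2 j hj).1
    show c - (c - j) = j
    omega
  · intro i _
    rfl

lemma pth_erase (Y : ℕ → S) {a b j : ℕ} (h1 : a ≤ j) (h2 : j < b) :
    ∏ l ∈ (Ico a b).erase j, (-(Y l + Y (l + 1))) = pth Y a j * pth Y (j + 1) b := by
  have e : (Ico a b).erase j = Ico a j ∪ Ico (j + 1) b := by
    ext r
    simp only [mem_erase, mem_Ico, mem_union]
    omega
  unfold pth
  rw [e, prod_union]
  rw [disjoint_left]
  intro r hr hr'
  rw [mem_Ico] at hr hr'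
  omega

lemma pth_cut (Y : ℕ → S) {a b j : ℕ} (h1 : a ≤ j) (h2 : j < b) :
    pth Y a b = pth Y a j * (-(Y j + Y (j + 1))) * pth Y (j + 1) b := by
  have h := mul_prod_erase (Ico a b) (fun l => (-(Y l + Y (l + 1)))) (mem_Ico.2 ⟨h1, h2⟩)
  rw [pth_erase Y h1 h2] at h
  rw [pth, ← h]
  ring

end index

section prods

variable (Y U : ℕ → S) (m : ℕ)

lemma Ao_mid : ∏ i ∈ Icc 1 m, Ao Y m i = pth Y 1 (m + 1) := by
  have h : ∀ i ∈ Icc 1 m, Ao Y m i =
      (fun j => -(Y j + Y (j + 1))) (m + 1 - i) := by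
    intro i hi
    rw [mem_Icc] at hi
    unfold Ao
    rw [if_neg (by omega)]
    simp only []
    rw [show m + 2 - i = m + 1 - i + 1 by omega]
  rw [prod_congr rfl h, pth]
  refine prod_rev (Icc 1 m) (m + 1) (fun j => -(Y j + Y (j + 1))) (Ico 1 (m + 1)) ?_ ?_ <;>
  · intro i hi
    simp only [mem_Icc, mem_Ico] at hi ⊢
    omega

lemma Ao_mid_erase {i : ℕ} (h1 : 1 ≤ i) (h2 : i ≤ m) :
    ∏ i' ∈ (Icc 1 m).erase i, Ao Y m i' = pth Y 1 (m + 1 - i) * pth Y (m + 2 - i) (m + 1) := by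
  have h : ∀ i' ∈ (Icc 1 m).erase i, Ao Y m i' =
      (fun j => -(Y j + Y (j + 1))) (m + 1 - i') := by
    intro i' hi
    rw [mem_erase, mem_Icc] at hi
    unfold Ao
    rw [if_neg (by omega)]
    simp only []
    rw [show m + 2 - i' = m + 1 - i' + 1 by omega]
  rw [prod_congr rfl h, prod_rev ((Icc 1 m).erase i) (m + 1) (fun j => -(Y j + Y (j + 1)))
    ((Ico 1 (m + 1)).erase (m + 1 - i)),
    pth_erase Y (by omega) (by omega), show m + 1 - i + 1 = m + 2 - i by omega] <;>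
  · intro i hi
    simp only [mem_Icc, mem_Ico, mem_erase] at hi ⊢
    omega

lemma Bo_mid : ∏ i ∈ Icc 2 (m + 1), Bo U m i = pth U 1 (m + 1) := by
  have h : ∀ i ∈ Icc 2 (m + 1), Bo U m i =
      (fun j => -(U j + U (j + 1))) (m + 2 - i) := by
    intro i hi
    rw [mem_Icc] at hi
    unfold Bo
    rw [if_neg (by omega), if_neg (by omega)]
    simp only []
    rw [show m + 3 - i = m + 2 - i + 1 by omega]
  rw [prod_congr rfl h, pth]
  refine prod_rev (Icc 2 (m + 1)) (m + 2) (fun j => -(U j + U (j + 1))) (Ico 1 (m + 1)) ?_ ?_ <;>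
  · intro i hi
    simp only [mem_Icc, mem_Ico] at hi ⊢
    omega

lemma Bo_mid_erase {i : ℕ} (h1 : 2 ≤ i) (h2 : i ≤ m + 1) :
    ∏ i' ∈ (Icc 2 (m + 1)).erase i, Bo U m i' =
      pth U 1 (m + 2 - i) * pth U (m + 3 - i) (m + 1) := by
  have h : ∀ i' ∈ (Icc 2 (m + 1)).erase i, Bo U m i' =
      (fun j => -(U j + U (j + 1))) (m + 2 - i') := by
    intro i' hi
    rw [mem_erase, mem_Icc] at hi
    unfold Bo
    rw [if_neg (by omega), if_neg (by omega)]
    simp only []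
    rw [show m + 3 - i' = m + 2 - i' + 1 by omega]
  rw [prod_congr rfl h, prod_rev ((Icc 2 (m + 1)).erase i) (m + 2) (fun j => -(U j + U (j + 1)))
    ((Ico 1 (m + 1)).erase (m + 2 - i)),
    pth_erase U (by omega) (by omega), show m + 2 - i + 1 = m + 3 - i by omega] <;>
  · intro i hi
    simp only [mem_Icc, mem_Ico, mem_erase] at hi ⊢
    omega

lemma Ao_zero : Ao Y m 0 = Y 0 - Y (m + 1) := by simp [Ao]

lemma Ao_last : Ao Y m (m + 1) = -(Y 0 + Y 1) := by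
  unfold Ao
  rw [if_neg (by omega), show m + 1 - (m + 1) = 0 by omega, show m + 2 - (m + 1) = 1 by omega]

lemma Bo_zero : Bo U m 0 = U 0 + U 1 := by simp [Bo]

lemma Bo_one : Bo U m 1 = U 0 - U (m + 1) := by simp [Bo]

lemma Ao_e0 : ∏ i ∈ (range (m + 2)).erase 0, Ao Y m i = -(Y 0 + Y 1) * pth Y 1 (m + 1) := by
  rw [erase0, prod_insert (by simp), Ao_mid, Ao_last]

lemma Ao_eL : ∏ i ∈ (range (m + 2)).erase (m + 1), Ao Y m i =
    (Y 0 - Y (m + 1)) * pth Y 1 (m + 1) := by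
  rw [eraseL, prod_insert (by simp), Ao_mid, Ao_zero]

lemma Ao_eM {i : ℕ} (h1 : 1 ≤ i) (h2 : i ≤ m) : ∏ i' ∈ (range (m + 2)).erase i, Ao Y m i' =
    (Y 0 - Y (m + 1)) * (-(Y 0 + Y 1)) * (pth Y 1 (m + 1 - i) * pth Y (m + 2 - i) (m + 1)) := by
  rw [eraseM h1 h2, prod_insert (by simp), prod_insert (by simp), Ao_mid_erase Y m h1 h2,
    Ao_zero, Ao_last]
  ring

lemma Ao_prod : ∏ i ∈ range (m + 2), Ao Y m i =
    (Y 0 - Y (m + 1)) * (-(Y 0 + Y 1)) * pth Y 1 (m + 1) := by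
  rw [range_split, prod_insert (by simp), prod_insert (by simp), Ao_mid, Ao_zero, Ao_last]
  ring

lemma Bo_e0 : ∏ i ∈ (range (m + 2)).erase 0, Bo U m i = (U 0 - U (m + 1)) * pth U 1 (m + 1) := by
  rw [erase0', prod_insert (by simp), Bo_mid, Bo_one]

lemma Bo_e1 : ∏ i ∈ (range (m + 2)).erase 1, Bo U m i = (U 0 + U 1) * pth U 1 (m + 1) := by
  rw [erase1', prod_insert (by simp), Bo_mid, Bo_zero]

lemma Bo_eM {i : ℕ} (h1 : 2 ≤ i) (h2 : i ≤ m + 1) :
    ∏ i' ∈ (range (m + 2)).erase i, Bo U m i' =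
    (U 0 + U 1) * (U 0 - U (m + 1)) * (pth U 1 (m + 2 - i) * pth U (m + 3 - i) (m + 1)) := by
  rw [eraseM' h1 h2, prod_insert (by simp), prod_insert (by simp), Bo_mid_erase U m h1 h2,
    Bo_zero, Bo_one]
  ring

lemma Bo_prod : ∏ i ∈ range (m + 2), Bo U m i =
    (U 0 + U 1) * (U 0 - U (m + 1)) * pth U 1 (m + 1) := by
  rw [range_split', prod_insert (by simp), prod_insert (by simp), Bo_mid, Bo_zero, Bo_one]
  ring

lemma Le_prod : ∏ i ∈ range (m + 2), Le U m i =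
    (U 0 + U 1 - U (m + 2)) * (U 0 - U (m + 1) - U (m + 2)) * pth U 1 (m + 1) := by
  have h : ∏ i ∈ Icc 2 (m + 1), Le U m i = pth U 1 (m + 1) := by
    rw [← Bo_mid]
    refine prod_congr rfl fun i hi => ?_
    rw [mem_Icc] at hi
    unfold Le
    rw [if_neg (by omega)]
  rw [range_split', prod_insert (by simp), prod_insert (by simp), h]
  have e0 : Le U m 0 = U 0 + U 1 - U (m + 2) := by simp [Le, Bo]
  have e1 : Le U m 1 = U 0 - U (m + 1) - U (m + 2) := by simp [Le, Bo]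
  rw [e0, e1]
  ring

lemma Lo_prod : ∏ i ∈ range (m + 2), Lo Y U m i =
    (Y 0 - Y (m + 1)) * (-(Y 0 + Y 1) + U (m + 2)) * pth Y 1 (m + 1) := by
  have h : ∏ i ∈ Icc 1 m, Lo Y U m i = pth Y 1 (m + 1) := by
    rw [← Ao_mid]
    refine prod_congr rfl fun i hi => ?_
    rw [mem_Icc] at hi
    unfold Lo
    rw [if_neg (by omega)]
  rw [range_split, prod_insert (by simp), prod_insert (by simp), h]
  have e0 : Lo Y U m 0 = Y 0 - Y (m + 1) := by simp [Lo, Ao]
  have e1 : Lo Y U m (m + 1) = -(Y 0 + Y 1) + U (m + 2) := by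
    unfold Lo
    rw [if_pos rfl, Ao_last]
  rw [e0, e1]
  ring

end prods

section eval

variable {Y U : ℕ → S} (hY : ∀ j, Y j * Y j = 0) (hU : ∀ j, U j * U j = 0) (m : ℕ)

/-- The top monomial in the `Y j`, up to sign. -/
def WY (Y : ℕ → S) (m : ℕ) : S := Y 0 * (pth Y 1 (m + 1) * Y 1)

include hY

lemma p_eq (j : ℕ) (h1 : 1 ≤ j) (h2 : j ≤ m + 1) :
    pth Y 1 (m + 1) * Y j = pth Y 1 (m + 1) * Y 1 :=
  pth_eq hY (by omega) h1 h2 le_rfl (by omega)

lemma p_sq (i j : ℕ) (h1 : 1 ≤ i) (h2 : i ≤ m + 1) (h3 : 1 ≤ j) (h4 : j ≤ m + 1) :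
    pth Y 1 (m + 1) * Y i * Y j = 0 :=
  pth_sq hY (by omega) h1 h2 h3 h4

/-- `Y j` kills the top monomial. -/
lemma WY_mul (j : ℕ) (hj : j ≤ m + 1) : WY Y m * Y j = 0 := by
  unfold WY
  rcases Nat.eq_zero_or_pos j with h | h
  · subst h
    linear_combination (pth Y 1 (m + 1) * Y 1) * hY 0
  · linear_combination (Y 0) * p_sq hY m 1 j le_rfl (by omega) h hj

/-- The product of the `A`. -/
lemma Ao_prod_zero : ∏ i ∈ range (m + 2), Ao Y m i = 0 := by
  rw [Ao_prod]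
  have h1 := p_eq hY m (m + 1) (by omega) le_rfl
  have h2 := p_sq hY m 1 (m + 1) le_rfl (by omega) (by omega) le_rfl
  linear_combination (-(pth Y 1 (m + 1))) * hY 0 + Y 0 * h1 + h2

lemma A0_mul (j : ℕ) (hj : j ≤ m + 1) :
    (-(Y 0 + Y 1) * pth Y 1 (m + 1)) * Y j = - WY Y m := by
  unfold WY
  rcases Nat.eq_zero_or_pos j with h | h
  · subst h
    linear_combination (-(pth Y 1 (m + 1))) * hY 0
  · linear_combination (-Y 0) * p_eq hY m j h hj - p_sq hY m 1 j le_rfl (by omega) h hj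

lemma AL_mul0 : ((Y 0 - Y (m + 1)) * pth Y 1 (m + 1)) * Y 0 = - WY Y m := by
  unfold WY
  linear_combination (pth Y 1 (m + 1)) * hY 0 - Y 0 * p_eq hY m (m + 1) (by omega) le_rfl

lemma AL_mul (j : ℕ) (h : 1 ≤ j) (hj : j ≤ m + 1) :
    ((Y 0 - Y (m + 1)) * pth Y 1 (m + 1)) * Y j = WY Y m := by
  unfold WY
  linear_combination (Y 0) * p_eq hY m j h hj - p_sq hY m (m + 1) j (by omega) le_rfl h hj

/-- The two pieces. -/
lemma two_piece {j : ℕ} (h1 : 1 ≤ j) (h2 : j ≤ m) :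
    (pth Y 1 j * Y j) * (pth Y (j + 1) (m + 1) * Y (j + 1)) = -(pth Y 1 (m + 1) * Y 1) := by
  have h := p_eq hY m j h1 (by omega)
  rw [← h, pth_cut Y (a := 1) (b := m + 1) (j := j) h1 (by omega)]
  linear_combination (-(pth Y 1 j * pth Y (j + 1) (m + 1))) * hY j

/-- Products of the middle kind, multiplied by a vertex of the first piece. -/
lemma AM_mul {j : ℕ} (h1 : 1 ≤ j) (h2 : j ≤ m) (l : ℕ) :
    ((Y 0 - Y (m + 1)) * (-(Y 0 + Y 1)) * (pth Y 1 j * pth Y (j + 1) (m + 1))) * Y l =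
      if l ≤ j then - WY Y m else if l ≤ m + 1 then WY Y m else
      ((Y 0 - Y (m + 1)) * (-(Y 0 + Y 1)) * (pth Y 1 j * pth Y (j + 1) (m + 1))) * Y l := by
  have tp := two_piece hY m h1 h2
  have a1 : pth Y 1 j * Y 1 = pth Y 1 j * Y j := pth_eq hY h1 le_rfl h1 h1 le_rfl
  have a2 : pth Y (j + 1) (m + 1) * Y (m + 1) = pth Y (j + 1) (m + 1) * Y (j + 1) :=
    pth_eq hY (by omega) (by omega) le_rfl le_rfl (by omega)
  unfold WY
  split_ifs with c1 c2
  · rcases Nat.eq_zero_or_pos l with hl | hl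
    · subst hl
      linear_combination (-(pth Y 1 j * pth Y (j + 1) (m + 1)) * (Y 0 + Y 1 - Y (m + 1))) * hY 0 +
        (pth Y (j + 1) (m + 1) * Y (m + 1) * Y 0) * a1 + (pth Y 1 j * Y j * Y 0) * a2 +
        Y 0 * tp
    · have b1 : pth Y 1 j * Y l = pth Y 1 j * Y j := pth_eq hY h1 hl c1 h1 le_rfl
      have b2 : pth Y 1 j * Y 1 * Y l = 0 := pth_sq hY h1 le_rfl h1 hl c1
      linear_combination (-(pth Y 1 j * pth Y (j + 1) (m + 1)) * Y l) * hY 0 +
        (-(Y 0 - Y (m + 1)) * pth Y (j + 1) (m + 1)) * b2 +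
        (Y 0 * Y (m + 1) * pth Y (j + 1) (m + 1)) * b1 + (pth Y 1 j * Y j * Y 0) * a2 +
        Y 0 * tp
  · have b1 : pth Y (j + 1) (m + 1) * Y l = pth Y (j + 1) (m + 1) * Y (j + 1) :=
      pth_eq hY (by omega) (by omega) c2 le_rfl (by omega)
    have b2 : pth Y (j + 1) (m + 1) * Y (m + 1) * Y l = 0 :=
      pth_sq hY (by omega) (by omega) le_rfl (by omega) c2
    linear_combination (-(pth Y 1 j * pth Y (j + 1) (m + 1)) * Y l) * hY 0 +
      ((Y 0 + Y 1) * pth Y 1 j) * b2 - (Y 0 * Y 1 * pth Y 1 j) * b1 -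
      (pth Y (j + 1) (m + 1) * Y (j + 1) * Y 0) * a1 - Y 0 * tp
  · rfl

end eval

end Pool.Agent.Helper55K9.HK.Ev
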