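import Pool.Agent.Helper55K9.HK.Ev2

/-!
# Relations from the first order equation
-/

set_option autoImplicit false

namespace Pool.Agent.Helper55K9.HK.Ev

open Finset

variable {S : Type*} [CommRing S]

section

variable {Y U : ℕ → S} (hY : ∀ j, Y j * Y j = 0) (hU : ∀ j, U j * U j = 0) (m : ℕ)

/-- Killers of the odd rows. -/
def KA (Y : ℕ → S) (m i : ℕ) : S :=
  if i = 0 then Y 0 + Y (m + 1) else Y (m + 1 - i) - Y (m + 2 - i)

/-- Killers of the even rows. -/
def KB (U : ℕ → S) (m i : ℕ) : S :=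
  if i = 0 then U 1 - U 0 else if i = 1 then U 0 + U (m + 1) else
    U (m + 2 - i) - U (m + 3 - i)

include hY in
lemma Ao_KA (i : ℕ) : Ao Y m i * KA Y m i = 0 := by
  unfold Ao KA
  split_ifs
  · linear_combination hY 0 - hY (m + 1)
  · linear_combination hY (m + 2 - i) - hY (m + 1 - i)

include hU in
lemma Bo_KB (i : ℕ) : Bo U m i * KB U m i = 0 := by
  unfold Bo KB
  split_ifs
  · linear_combination hU 1 - hU 0
  · linear_combination hU 0 - hU (m + 1)
  · linear_combination hU (m + 3 - i) - hU (m + 2 - i)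

include hY in
lemma Ao_erase_KA (i : ℕ) (hi : i ≤ m + 1) :
    (∏ i' ∈ (range (m + 2)).erase i, Ao Y m i') * KA Y m i = -2 * WY Y m := by
  rcases Nat.eq_zero_or_pos i with h | h
  · subst h
    rw [Ao_e0]
    have h1 := A0_mul hY m 0 (by omega)
    have h2 := A0_mul hY m (m + 1) le_rfl
    simp only [KA, if_true]
    linear_combination h1 + h2
  · rcases Nat.lt_or_ge m i with h' | h'
    · obtain rfl : i = m + 1 := by omega
      rw [Ao_eL]
      have h1 := AL_mul0 hY m
      have h2 := AL_mul hY m 1 le_rfl (by omega)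
      unfold KA
      rw [if_neg (by omega), show m + 1 - (m + 1) = 0 by omega,
        show m + 2 - (m + 1) = 1 by omega]
      linear_combination h1 - h2
    · rw [Ao_eM Y m h h', show m + 2 - i = m + 1 - i + 1 by omega]
      have h1 := AM_mul hY m (j := m + 1 - i) (by omega) (by omega) (m + 1 - i)
      have h2 := AM_mul hY m (j := m + 1 - i) (by omega) (by omega) (m + 1 - i + 1)
      rw [if_pos le_rfl] at h1
      rw [if_neg (by omega), if_pos (by omega)] at h2
      unfold KA
      rw [if_neg (by omega), show m + 2 - i = m + 1 - i + 1 by omega]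
      linear_combination h1 - h2

include hU in
lemma Bo_erase_KB (i : ℕ) (hi : i ≤ m + 1) :
    (∏ i' ∈ (range (m + 2)).erase i, Bo U m i') * KB U m i = 2 * WY U m := by
  rcases Nat.lt_or_ge i 2 with h | h
  · interval_cases i
    · rw [Bo_e0]
      have h1 := AL_mul0 hU m
      have h2 := AL_mul hU m 1 le_rfl (by omega)
      simp only [KB, if_true]
      linear_combination h2 - h1
    · rw [Bo_e1]
      have h1 := A0_mul hU m 0 (by omega)
      have h2 := A0_mul hU m (m + 1) le_rfl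
      unfold KB
      rw [if_neg (by omega), if_pos rfl]
      linear_combination -h1 - h2
  · rw [Bo_eM U m h (by omega), show m + 3 - i = m + 2 - i + 1 by omega]
    have h1 := AM_mul hU m (j := m + 2 - i) (by omega) (by omega) (m + 2 - i)
    have h2 := AM_mul hU m (j := m + 2 - i) (by omega) (by omega) (m + 2 - i + 1)
    rw [if_pos le_rfl] at h1
    rw [if_neg (by omega), if_pos (by omega)] at h2
    unfold KB
    rw [if_neg (by omega), if_neg (by omega), show m + 3 - i = m + 2 - i + 1 by omega]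
    linear_combination h2 - h1

/-- The product of the even rows. -/
lemma Le_eval (hU : ∀ j, U j * U j = 0) : ∏ i ∈ range (m + 2), Le U m i =
    -2 * (U 0 * U (m + 2) * pth U 1 (m + 1)) := by
  rw [Le_prod]
  have h1 := p_eq hU m (m + 1) (by omega) le_rfl
  have h2 := p_sq hU m 1 (m + 1) le_rfl (by omega) (by omega) le_rfl
  linear_combination (pth U 1 (m + 1)) * hU 0 + (pth U 1 (m + 1)) * hU (m + 2) - U 0 * h1 -
    h2 + U (m + 2) * h1

/-- The product of the odd rows. -/
lemma Lo_eval (hY : ∀ j, Y j * Y j = 0) : ∏ i ∈ range (m + 2), Lo Y U m i =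
    (Y 0 - Y (m + 1)) * pth Y 1 (m + 1) * U (m + 2) := by
  rw [Lo_prod]
  have h := Ao_prod_zero hY m
  rw [Ao_prod] at h
  linear_combination h

include hU in
lemma PB_mul (j : ℕ) (h1 : 1 ≤ j) (h2 : j ≤ m + 1) :
    (-2 * (U 0 * U (m + 2) * pth U 1 (m + 1))) * U j = -2 * (U (m + 2) * WY U m) := by
  unfold WY
  linear_combination (-2 * (U 0 * U (m + 2))) * p_eq hU m j h1 h2

include hU in
lemma PB_mul0 : (-2 * (U 0 * U (m + 2) * pth U 1 (m + 1))) * U 0 = 0 := by
  linear_combination (-2 * (U (m + 2) * pth U 1 (m + 1))) * hU 0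

include hU in
lemma PB_mulL : (-2 * (U 0 * U (m + 2) * pth U 1 (m + 1))) * U (m + 2) = 0 := by
  linear_combination (-2 * (U 0 * pth U 1 (m + 1))) * hU (m + 2)

include hU in
lemma UW_mul (j : ℕ) (hj : j ≤ m + 2) : (U (m + 2) * WY U m) * U j = 0 := by
  rcases Nat.lt_or_ge (m + 1) j with h | h
  · obtain rfl : j = m + 2 := by omega
    linear_combination (WY U m) * hU (m + 2)
  · linear_combination (U (m + 2)) * WY_mul hU m j h

include hU in
/-- `PB` times a killer is a multiple of the top monomial. -/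
lemma PB_KB (i : ℕ) (hi : i ≤ m + 1) :
    ∃ c : ℤ, (-2 * (U 0 * U (m + 2) * pth U 1 (m + 1))) * KB U m i =
      (c : S) * (U (m + 2) * WY U m) := by
  unfold KB
  split_ifs with h1 h2
  · refine ⟨-2, ?_⟩
    have a := PB_mul hU m 1 le_rfl (by omega)
    have b := PB_mul0 hU m
    push_cast
    linear_combination a - b
  · refine ⟨-2, ?_⟩
    have a := PB_mul hU m (m + 1) (by omega) le_rfl
    have b := PB_mul0 hU m
    push_cast
    linear_combination a + b
  · refine ⟨0, ?_⟩
    have a := PB_mul hU m (m + 2 - i) (by omega) (by omega)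
    have b := PB_mul hU m (m + 3 - i) (by omega) (by omega)
    push_cast
    linear_combination a - b

/-- The relation `E1`. -/
lemma relE1 (hY : ∀ j, Y j * Y j = 0) (hU : ∀ j, U j * U j = 0) (Do De : ℕ → S)
    (E : d1 (range (m + 2)) (Lo Y U m) Do * ∏ i ∈ range (m + 2), Le U m i +
      (∏ i ∈ range (m + 2), Lo Y U m i) * d1 (range (m + 2)) (Le U m) De = 0)
    (i : ℕ) (hi : i ≤ m) :
    2 * (WY Y m * ((-2 * (U 0 * U (m + 2) * pth U 1 (m + 1))) * Do i)) = 0 := by
  rw [Le_eval m hU] at E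
  set PB := -2 * (U 0 * U (m + 2) * pth U 1 (m + 1)) with hPB
  have h1 : PB * d1 (range (m + 2)) (Lo Y U m) Do = PB * d1 (range (m + 2)) (Ao Y m) Do := by
    refine mul_d1_congr PB (fun r _ => ?_) (fun _ _ => rfl)
    unfold Lo
    split_ifs
    · have := PB_mulL hU m
      linear_combination this
    · rfl
  have h2 : (∏ i ∈ range (m + 2), Lo Y U m i) * KA Y m i = 0 := by
    refine prod_mul_kill (i := i) (mem_range.2 (by omega)) _ _ ?_
    unfold Lo
    rw [if_neg (by omega)]
    exact Ao_KA hY m i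
  have h3 := d1_mul_kill (T := range (m + 2)) (i := i) (mem_range.2 (by omega)) (Ao Y m) Do
    (KA Y m i) (Ao_KA hY m i)
  have h4 := Ao_erase_KA hY m i (by omega)
  linear_combination (-(KA Y m i)) * E + (KA Y m i) * h1 + PB * h3 + PB * Do i * h4 +
    d1 (range (m + 2)) (Le U m) De * h2

/-- The relation `E2`. -/
lemma relE2 (hY : ∀ j, Y j * Y j = 0) (hU : ∀ j, U j * U j = 0) (Do De : ℕ → S)
    (E : d1 (range (m + 2)) (Lo Y U m) Do * ∏ i ∈ range (m + 2), Le U m i +
      (∏ i ∈ range (m + 2), Lo Y U m i) * d1 (range (m + 2)) (Le U m) De = 0)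
    (hDo : ∀ i ≤ m + 1, (U (m + 2) * WY U m) * Do i = 0)
    (i : ℕ) (hi : i ≤ m + 1) :
    2 * ((U (m + 2) * WY U m) * (((Y 0 - Y (m + 1)) * pth Y 1 (m + 1)) * De i)) = 0 := by
  rw [Le_eval m hU, Lo_eval m hY] at E
  obtain ⟨c, hc⟩ := PB_KB hU m i hi
  set PB := -2 * (U 0 * U (m + 2) * pth U 1 (m + 1)) with hPB
  set PA := (Y 0 - Y (m + 1)) * pth Y 1 (m + 1) * U (m + 2) with hPA
  have h1 : PA * d1 (range (m + 2)) (Le U m) De = PA * d1 (range (m + 2)) (Bo U m) De := by
    refine mul_d1_congr PA (fun r _ => ?_) (fun _ _ => rfl)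
    unfold Le
    split_ifs
    · rw [hPA]
      linear_combination (-((Y 0 - Y (m + 1)) * pth Y 1 (m + 1))) * hU (m + 2)
    · rfl
  have h2 : d1 (range (m + 2)) (Lo Y U m) Do * (U (m + 2) * WY U m) = 0 := by
    unfold d1
    rw [sum_mul]
    refine sum_eq_zero fun r hr => ?_
    linear_combination (∏ r' ∈ (range (m + 2)).erase r, Lo Y U m r') *
      hDo r (by rw [mem_range] at hr; omega)
  have h3 := d1_mul_kill (T := range (m + 2)) (i := i) (mem_range.2 (by omega)) (Bo U m) De
    (KB U m i) (Bo_KB hU m i)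
  have h4 := Bo_erase_KB hU m i (by omega)
  rw [hPA] at E h1
  linear_combination (KB U m i) * E - (KB U m i) * h1 -
    (Y 0 - Y (m + 1)) * pth Y 1 (m + 1) * U (m + 2) * h3 -
    (Y 0 - Y (m + 1)) * pth Y 1 (m + 1) * U (m + 2) * De i * h4 -
    d1 (range (m + 2)) (Lo Y U m) Do * hc - c * h2

/-- The relation `E3`. -/
lemma relE3 (hY : ∀ j, Y j * Y j = 0) (hU : ∀ j, U j * U j = 0) (Do De : ℕ → S)
    (E : d1 (range (m + 2)) (Lo Y U m) Do * ∏ i ∈ range (m + 2), Le U m i +
      (∏ i ∈ range (m + 2), Lo Y U m i) * d1 (range (m + 2)) (Le U m) De = 0)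
    (hDe : ∀ i, 1 ≤ i → i ≤ m + 1 → WY Y m * De i = 0)
    (hDo : (-2 * (U 0 * U (m + 2) * pth U 1 (m + 1))) * Do (m + 1) = 0) :
    2 * (WY Y m * U (m + 2) * (De 0 * ((U 0 - U (m + 1)) * pth U 1 (m + 1)))) = 0 := by
  rw [Le_eval m hU, Lo_eval m hY] at E
  set PB := -2 * (U 0 * U (m + 2) * pth U 1 (m + 1)) with hPB
  set PA := (Y 0 - Y (m + 1)) * pth Y 1 (m + 1) * U (m + 2) with hPA
  have h1 : PB * d1 (range (m + 2)) (Lo Y U m) Do = PB * d1 (range (m + 2)) (Ao Y m) Do := by
    refine mul_d1_congr PB (fun r _ => ?_) (fun _ _ => rfl)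
    unfold Lo
    split_ifs
    · have := PB_mulL hU m
      linear_combination this
    · rfl
  have h3 := d1_mul_kill (T := range (m + 2)) (i := m + 1) (mem_range.2 (by omega)) (Ao Y m) Do
    (KA Y m (m + 1)) (Ao_KA hY m (m + 1))
  have h4 : ((Y 0 - Y (m + 1)) * pth Y 1 (m + 1)) * KA Y m (m + 1) = -2 * WY Y m := by
    rw [← Ao_eL]
    exact Ao_erase_KA hY m (m + 1) le_rfl
  have h5 : WY Y m * U (m + 2) * d1 (range (m + 2)) (Le U m) De =
      WY Y m * U (m + 2) * d1 (range (m + 2)) (Bo U m) De := by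
    refine mul_d1_congr _ (fun r _ => ?_) (fun _ _ => rfl)
    unfold Le
    split_ifs
    · linear_combination (-(WY Y m)) * hU (m + 2)
    · rfl
  have h6 : WY Y m * d1 (range (m + 2)) (Bo U m) De =
      WY Y m * (De 0 * ((U 0 - U (m + 1)) * pth U 1 (m + 1))) := by
    rw [← Bo_e0]
    unfold d1
    rw [mul_sum, sum_eq_single 0]
    · intro r hr hr0
      rw [mem_range] at hr
      linear_combination (∏ r' ∈ (range (m + 2)).erase r, Bo U m r') *
        hDe r (by omega) (by omega)
    · intro h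
      exact absurd (mem_range.2 (by omega)) h
  linear_combination (-(KA Y m (m + 1))) * E + (KA Y m (m + 1)) * h1 + PB * h3 +
    (∏ r ∈ (range (m + 2)).erase (m + 1), Ao Y m r) * KA Y m (m + 1) * hDo +
    (U (m + 2)) * d1 (range (m + 2)) (Le U m) De * h4 - 2 * h5 - 2 * U (m + 2) * h6

end

end Pool.Agent.Helper55K9.HK.Ev
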