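import Pool.Agent.Helper55K9.HK.Ev3
import Pool.Agent.Helper86K9.HK.Crit2
import Pool.Agent.Helper86K9.HK.Tan

/-!
# The point for `n = t + 1`, `t` even
-/

set_option autoImplicit false

namespace Pool.Agent.Helper55K9.HK.Ev

open Finset Pool.Agent.Helper86K9.HK

universe u

section two

variable {S : Type*} [CommRing S]

lemma range_two (n : ℕ) : range (2 * n) =
    (range n).image (fun i => 2 * i + 1) ∪ (range n).image (fun i => 2 * i) := by
  ext r
  simp only [mem_range, mem_union, mem_image]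
  constructor
  · intro h
    rcases Nat.even_or_odd' r with ⟨c, hc | hc⟩
    · exact Or.inr ⟨c, by omega, by omega⟩
    · exact Or.inl ⟨c, by omega, by omega⟩
  · rintro (⟨c, h1, h2⟩ | ⟨c, h1, h2⟩) <;> omega

lemma disj_two (n : ℕ) : Disjoint ((range n).image (fun i => 2 * i + 1))
    ((range n).image (fun i => 2 * i)) := by
  rw [disjoint_left]
  intro r h1 h2
  obtain ⟨a, -, ha⟩ := mem_image.1 h1
  obtain ⟨b, -, hb⟩ := mem_image.1 h2
  omega

lemma inj1 : Function.Injective (fun i : ℕ => 2 * i + 1) := fun a b h => by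
  simpa using h

lemma inj0 : Function.Injective (fun i : ℕ => 2 * i) := fun a b h => by
  simpa using h

lemma prod_range_two (n : ℕ) (L : ℕ → S) : ∏ r ∈ range (2 * n), L r =
    (∏ i ∈ range n, L (2 * i + 1)) * ∏ i ∈ range n, L (2 * i) := by
  rw [range_two, prod_union (disj_two n), prod_image (fun _ _ _ _ h => inj1 h),
    prod_image (fun _ _ _ _ h => inj0 h)]

lemma d1_range_two (n : ℕ) (L D : ℕ → S) : d1 (range (2 * n)) L D =
    d1 (range n) (fun i => L (2 * i + 1)) (fun i => D (2 * i + 1)) * ∏ i ∈ range n, L (2 * i) +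
    (∏ i ∈ range n, L (2 * i + 1)) *
      d1 (range n) (fun i => L (2 * i)) (fun i => D (2 * i)) := by
  rw [range_two, d1_union _ _ (disj_two n), d1_image _ inj1, d1_image _ inj0,
    prod_image (fun _ _ _ _ h => inj1 h), prod_image (fun _ _ _ _ h => inj0 h)]

lemma d2_range_two (n : ℕ) (L a b : ℕ → S) (h1 : ∏ i ∈ range n, L (2 * i + 1) = 0)
    (h0 : ∏ i ∈ range n, L (2 * i) = 0) : d2 (range (2 * n)) L a b =
    d1 (range n) (fun i => L (2 * i + 1)) (fun i => a (2 * i + 1)) *
      d1 (range n) (fun i => L (2 * i)) (fun i => b (2 * i)) +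
    d1 (range n) (fun i => L (2 * i + 1)) (fun i => b (2 * i + 1)) *
      d1 (range n) (fun i => L (2 * i)) (fun i => a (2 * i)) := by
  rw [range_two, d2_union _ _ (disj_two n), d1_image _ inj1, d1_image _ inj0,
    d1_image _ inj1, d1_image _ inj0,
    prod_image (fun _ _ _ _ h => inj1 h), prod_image (fun _ _ _ _ h => inj0 h), h1, h0]
  ring

lemma sum_Icc_two (n : ℕ) (F : ℕ → S) : ∑ c ∈ Icc 1 (2 * n + 1), F c =
    ∑ j ∈ range (n + 1), F (2 * j + 1) + ∑ j ∈ range n, F (2 * j + 2) := by
  induction n with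
  | zero => simp
  | succ n ih =>
    rw [show 2 * (n + 1) + 1 = 2 * n + 1 + 1 + 1 by ring, sum_Icc_succ_top (by omega),
      sum_Icc_succ_top (by omega), ih, sum_range_succ (fun j => F (2 * j + 1)) (n + 1),
      sum_range_succ (fun j => F (2 * j + 2)) n,
      show 2 * n + 1 + 1 = 2 * n + 2 by ring,
      show 2 * (n + 1) + 1 = 2 * n + 2 + 1 by ring]
    ring

end two

section rows

variable {k S : Type*} [Field k] [CommRing S] [Algebra k S]

lemma row_even (m : ℕ) (z : ℕ → k) (x : ℕ → S) (i : ℕ) : row (2 * m + 5) z x (2 * i) =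
    ∑ j ∈ range (m + 3), z (2 * (i + j) + 1) • x (2 * j + 1) +
      ∑ j ∈ range (m + 2), z (2 * (i + j) + 2) • x (2 * j + 2) := by
  unfold row
  rw [show 2 * m + 5 = 2 * (m + 2) + 1 by ring, sum_Icc_two]
  congr 1 <;>
  · refine sum_congr rfl fun j _ => ?_
    congr 2
    ring

lemma row_odd (m : ℕ) (z : ℕ → k) (x : ℕ → S) (i : ℕ) : row (2 * m + 5) z x (2 * i + 1) =
    ∑ j ∈ range (m + 3), z (2 * (i + j) + 2) • x (2 * j + 1) +
      ∑ j ∈ range (m + 2), z (2 * (i + j) + 3) • x (2 * j + 2) := by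
  unfold row
  rw [show 2 * m + 5 = 2 * (m + 2) + 1 by ring, sum_Icc_two]
  congr 1 <;>
  · refine sum_congr rfl fun j _ => ?_
    congr 2
    ring

lemma pick (n i c : ℕ) (X : ℕ → S) : ∑ j ∈ range n, (if i + j = c then (1 : k) else 0) • X j =
    if i ≤ c ∧ c - i < n then X (c - i) else 0 := by
  split_ifs with h
  · rw [sum_eq_single (c - i)]
    · rw [if_pos (by omega), one_smul]
    · intro j _ hj
      rw [if_neg (by omega), zero_smul]
    · intro hj
      exact absurd (mem_range.2 h.2) hj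
  · refine sum_eq_zero fun j hj => ?_
    rw [mem_range] at hj
    rw [if_neg (by omega), zero_smul]

/-- The point. -/
def qe (k : Type*) [Field k] (m j : ℕ) : k :=
  if j = 1 ∨ j = 3 ∨ j = 4 * m + 8 then 1 else if j = 2 * m + 5 ∨ j = 2 * m + 7 then -1 else 0

lemma qe_odd (m l : ℕ) : qe k m (2 * l + 1) = (if l = 0 then (1 : k) else 0) +
    (if l = 1 then 1 else 0) - (if l = m + 2 then 1 else 0) - (if l = m + 3 then 1 else 0) := by
  unfold qe
  split_ifs <;> first | (exfalso; omega) | simp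

lemma qe_even (m l : ℕ) : qe k m (2 * l + 2) = (if l = 2 * m + 3 then (1 : k) else 0) := by
  unfold qe
  split_ifs <;> first | (exfalso; omega) | simp

lemma row_qe_even (m : ℕ) (x : ℕ → S) (i : ℕ) (hi : i ≤ m + 1) :
    row (2 * m + 5) (qe k m) x (2 * i) = Le (fun j => x (2 * j + 1)) m i := by
  rw [row_even]
  simp only [qe_odd, qe_even, add_smul, sub_smul, sum_add_distrib, sum_sub_distrib, pick]
  unfold Le Bo
  rcases Nat.eq_zero_or_pos i with h | h
  · subst h
    simp
    intro h
    omega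
  · rcases Nat.lt_or_ge i 2 with h' | h'
    · obtain rfl : i = 1 := by omega
      simp
      intro h
      omega
    · rw [if_neg (by omega), if_neg (by omega), if_pos (by omega), if_pos (by omega),
        if_neg (by omega), if_neg (by omega), if_neg (by omega), if_neg (by omega)]
      ring

lemma row_qe_odd (m : ℕ) (x : ℕ → S) (i : ℕ) (hi : i ≤ m + 1) :
    row (2 * m + 5) (qe k m) x (2 * i + 1) =
      Lo (fun j => x (2 * j + 2)) (fun j => x (2 * j + 1)) m i := by
  rw [row_odd]
  have e : ∀ j, 2 * (i + j) + 3 = 2 * (i + 1 + j) + 1 := fun j => by ring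
  simp only [e, qe_odd, qe_even, add_smul, sub_smul, sum_add_distrib, sum_sub_distrib, pick]
  unfold Lo Ao
  rcases Nat.eq_zero_or_pos i with h | h
  · subst h
    simp
    intro h
    omega
  · rw [if_neg (by omega : ¬ (i + 1 ≤ 0 ∧ 0 - (i + 1) < m + 2)),
      if_neg (by omega : ¬ (i + 1 ≤ 1 ∧ 1 - (i + 1) < m + 2)),
      if_pos (by omega : i + 1 ≤ m + 2 ∧ m + 2 - (i + 1) < m + 2),
      if_pos (by omega : i + 1 ≤ m + 3 ∧ m + 3 - (i + 1) < m + 2),
      if_neg (by omega : ¬ i = 0), show m + 2 - (i + 1) = m + 1 - i by omega,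
      show m + 3 - (i + 1) = m + 2 - i by omega]
    by_cases h' : i = m + 1
    · subst h'
      rw [if_pos (by omega), if_pos rfl, show 2 * m + 3 - (m + 1) = m + 2 by omega]
      ring
    · rw [if_neg (by omega), if_neg h']
      ring

end rows

section point

variable {k : Type u} [Field k]

/-- The `Y` and `U` of the universal algebra. -/
noncomputable def YY (k : Type u) [Field k] (j : ℕ) : Sq k := sqx k (2 * j + 2)

/-- The `Y` and `U` of the universal algebra. -/
noncomputable def UU (k : Type u) [Field k] (j : ℕ) : Sq k := sqx k (2 * j + 1)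

lemma YY_sq (j : ℕ) : YY k j * YY k j = 0 := (alg3 k).1 _

lemma UU_sq (j : ℕ) : UU k j * UU k j = 0 := (alg3 k).1 _

lemma prodL_odd (m : ℕ) (x : ℕ → Sq k) :
    ∏ i ∈ range (m + 2), row (2 * m + 5) (qe k m) x (2 * i + 1) =
      ∏ i ∈ range (m + 2), Lo (fun j => x (2 * j + 2)) (fun j => x (2 * j + 1)) m i := by
  refine prod_congr rfl fun i hi => ?_
  rw [mem_range] at hi
  exact row_qe_odd m x i (by omega)

lemma prodL_even (m : ℕ) (x : ℕ → Sq k) :
    ∏ i ∈ range (m + 2), row (2 * m + 5) (qe k m) x (2 * i) =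
      ∏ i ∈ range (m + 2), Le (fun j => x (2 * j + 1)) m i := by
  refine prod_congr rfl fun i hi => ?_
  rw [mem_range] at hi
  exact row_qe_even m x i (by omega)

/-- The point lies on the variety. -/
theorem van_qe (m : ℕ) : Van (2 * m + 4) (2 * m + 4) (2 * m + 5) (qe k m) := by
  obtain ⟨hsq, -⟩ := alg3 k
  apply alg2 k
  intro T hT hc
  have hT' : T = range (2 * (m + 2)) :=
    eq_of_subset_of_card_le (by rw [show 2 * (m + 2) = 2 * m + 4 by ring]; exact hT)
      (by rw [card_range, hc]; omega)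
  rw [hT', prod_range_two, prodL_odd, prodL_even]
  change (∏ i ∈ range (m + 2), Lo (YY k) (UU k) m i) * ∏ i ∈ range (m + 2), Le (UU k) m i = 0
  rw [Le_eval m UU_sq, Lo_eval m YY_sq]
  linear_combination (-2 * ((YY k 0 - YY k (m + 1)) * pth (YY k) 1 (m + 1)) *
    (UU k 0 * pth (UU k) 1 (m + 1))) * UU_sq (k := k) (m + 2)

/-- The first order equation. -/
theorem first_order (m : ℕ) (δ : ℕ → k)
    (hδ : Tan (2 * m + 4) (2 * m + 4) (2 * m + 5) (qe k m) δ) :
    d1 (range (m + 2)) (Lo (YY k) (UU k) m)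
        (fun i => row (2 * m + 5) δ (sqx k) (2 * i + 1)) *
      ∏ i ∈ range (m + 2), Le (UU k) m i +
      (∏ i ∈ range (m + 2), Lo (YY k) (UU k) m i) *
        d1 (range (m + 2)) (Le (UU k) m) (fun i => row (2 * m + 5) δ (sqx k) (2 * i)) = 0 := by
  obtain ⟨hsq, -⟩ := alg3 k
  have key := tan1 k (Sq k) _ _ _ _ _ hδ (sqx k) hsq (range (2 * (m + 2)))
    (by rw [show 2 * (m + 2) = 2 * m + 4 by ring]) (by rw [card_range]; ring)
  change d1 (range (2 * (m + 2))) (fun r => row (2 * m + 5) (qe k m) (sqx k) r)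
    (fun r => row (2 * m + 5) δ (sqx k) r) = 0 at key
  rw [d1_range_two, prodL_odd, prodL_even] at key
  rw [← key]
  congr 2
  · refine d1_congr (fun i hi => ?_) (fun _ _ => rfl)
    rw [mem_range] at hi
    exact (row_qe_odd m (sqx k) i (by omega)).symm
  · refine d1_congr (fun i hi => ?_) (fun _ _ => rfl)
    rw [mem_range] at hi
    exact (row_qe_even m (sqx k) i (by omega)).symm

/-- A linear form times a fixed element. -/
lemma lin_mul {S : Type u} [CommRing S] [Algebra k S] (n : ℕ) (c : ℕ → k) (X : ℕ → S)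
    (e f : S) (g : ℕ → k)
    (h : ∀ j ∈ range n, e * X j = algebraMap k S (g j) * f) :
    e * ∑ j ∈ range n, c j • X j =
      algebraMap k S (∑ j ∈ range n, c j * g j) * f := by
  rw [mul_sum, map_sum, sum_mul]
  refine sum_congr rfl fun j hj => ?_
  rw [mul_smul_comm, h j hj, map_mul, Algebra.smul_def]
  ring

/-- The top monomial. -/
lemma top_ne (m : ℕ) (c : k)
    (h : algebraMap k (Sq k) c * (WY (YY k) m * (UU k (m + 2) * WY (UU k) m)) = 0) : c = 0 := by
  obtain ⟨-, hind⟩ := alg3 k
  have h1 : WY (YY k) m = (-1) ^ m * ∏ l ∈ range (m + 2), YY k l := by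
    unfold WY
    rw [pth_mul YY_sq (by omega) 1 le_rfl (by omega), show m + 1 - 1 = m by omega]
    have e : range (m + 2) = insert 0 (Icc 1 (m + 1)) := by
      ext r
      simp only [mem_range, mem_insert, mem_Icc]
      omega
    rw [e, prod_insert (by simp)]
    ring
  have h2 : UU k (m + 2) * WY (UU k) m = (-1) ^ m * ∏ l ∈ range (m + 3), UU k l := by
    unfold WY
    rw [pth_mul UU_sq (by omega) 1 le_rfl (by omega), show m + 1 - 1 = m by omega]
    have e : range (m + 3) = insert 0 (insert (m + 2) (Icc 1 (m + 1))) := by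
      ext r
      simp only [mem_range, mem_insert, mem_Icc]
      omega
    rw [e, prod_insert (by simp), prod_insert (by simp)]
    ring
  rw [h1, h2] at h
  have h3 : ((-1 : Sq k) ^ m) * (-1) ^ m = 1 := by
    rw [← mul_pow]
    norm_num
  apply hind c ((range (m + 2)).image (fun j => 2 * j + 2) ∪
    (range (m + 3)).image (fun j => 2 * j + 1))
  rw [prod_union, prod_image (fun _ _ _ _ h => by simpa using h),
    prod_image (fun _ _ _ _ h => by simpa using h)]
  · change algebraMap k (Sq k) c * ((∏ l ∈ range (m + 2), YY k l) *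
      ∏ l ∈ range (m + 3), UU k l) = 0
    linear_combination h - algebraMap k (Sq k) c * ((∏ l ∈ range (m + 2), YY k l) *
      ∏ l ∈ range (m + 3), UU k l) * h3
  · rw [disjoint_left]
    intro r h1 h2
    obtain ⟨a, -, ha⟩ := mem_image.1 h1
    obtain ⟨b, -, hb⟩ := mem_image.1 h2
    omega

end point

end Pool.Agent.Helper55K9.HK.Ev
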