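import Pool.Agent.Helper55K9.HK.Ev4

/-!
# The tangent space at the point
-/

set_option autoImplicit false

namespace Pool.Agent.Helper55K9.HK.Ev

open Finset Pool.Agent.Helper86K9.HK

universe u

variable {k : Type u} [Field k]

/-- The coordinates which are set to zero. -/
def BB (m : ℕ) : Finset ℕ := insert (4 * m + 8) ((range (2 * m + 3)).image fun l => 2 * l + 3)

lemma card_BB (m : ℕ) : (BB m).card ≤ 2 * m + 4 := by
  unfold BB
  refine (card_insert_le _ _).trans ?_
  have := card_image_le (s := range (2 * m + 3)) (f := fun l => 2 * l + 3)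
  rw [card_range] at this
  omega

section

variable {S : Type u} [CommRing S] [Algebra k S]

lemma row_odd_B (m : ℕ) (δ : ℕ → k) (hB : ∀ j ∈ BB m, δ j = 0) (x : ℕ → S) (i : ℕ)
    (hi : i ≤ m + 1) : row (2 * m + 5) δ x (2 * i + 1) =
      ∑ j ∈ range (m + 3), algebraMap k S (δ (2 * (i + j) + 2)) * x (2 * j + 1) := by
  rw [row_odd]
  simp only [← Algebra.smul_def]
  have : ∑ j ∈ range (m + 2), δ (2 * (i + j) + 3) • x (2 * j + 2) = 0 := by
    refine sum_eq_zero fun j hj => ?_
    rw [mem_range] at hj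
    rw [hB, zero_smul]
    unfold BB
    rw [mem_insert, mem_image]
    exact Or.inr ⟨i + j, by rw [mem_range]; omega, by omega⟩
  rw [this, add_zero]

lemma row_even_B (m : ℕ) (δ : ℕ → k) (hB : ∀ j ∈ BB m, δ j = 0) (x : ℕ → S) (i : ℕ)
    (hi : i ≤ m + 1) : row (2 * m + 5) δ x (2 * i) =
      algebraMap k S (if i = 0 then δ 1 else 0) * x 1 +
        ∑ j ∈ range (m + 2), algebraMap k S (δ (2 * (i + j) + 2)) * x (2 * j + 2) := by
  rw [row_even]
  simp only [← Algebra.smul_def]
  congr 1
  have : ∀ j ∈ range (m + 3), δ (2 * (i + j) + 1) • x (2 * j + 1) =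
      if j = 0 then (if i = 0 then δ 1 else 0) • x 1 else 0 := by
    intro j hj
    rw [mem_range] at hj
    split_ifs with h1 h2
    · subst h1 h2
      simp
    · subst h1
      rw [hB, zero_smul]
      unfold BB
      rw [mem_insert, mem_image]
      exact Or.inr ⟨i - 1, by rw [mem_range]; omega, by omega⟩
    · rw [hB, zero_smul]
      unfold BB
      rw [mem_insert, mem_image]
      exact Or.inr ⟨i + j - 1, by rw [mem_range]; omega, by omega⟩
  rw [sum_congr rfl this, sum_ite_eq' (range (m + 3)) 0, if_pos (mem_range.2 (by omega))]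

end

lemma sum_g (m : ℕ) (f : ℕ → k) (c : k) :
    ∑ j ∈ range (m + 3), f j * (if 1 ≤ j ∧ j ≤ m + 1 then c else 0) =
      c * ∑ j ∈ Icc 1 (m + 1), f j := by
  have h : ∀ j ∈ range (m + 3), f j * (if 1 ≤ j ∧ j ≤ m + 1 then c else 0) =
      if j ∈ Icc 1 (m + 1) then c * f j else 0 := by
    intro j _
    by_cases hj : 1 ≤ j ∧ j ≤ m + 1
    · rw [if_pos hj, if_pos (mem_Icc.2 hj)]
      ring
    · rw [if_neg hj, if_neg (fun h => hj (mem_Icc.1 h))]
      ring
  rw [sum_congr rfl h, ← sum_filter, mul_sum]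
  refine sum_congr ?_ fun _ _ => rfl
  ext r
  simp only [mem_filter, mem_range, mem_Icc]
  omega

lemma sum_g' (m : ℕ) (f : ℕ → k) :
    ∑ j ∈ range (m + 2), f j * (if j = 0 then -1 else 1) =
      - f 0 + ∑ j ∈ Icc 1 (m + 1), f j := by
  have e : range (m + 2) = insert 0 (Icc 1 (m + 1)) := by
    ext r
    simp only [mem_range, mem_insert, mem_Icc]
    omega
  rw [e, sum_insert (by simp)]
  congr 1
  · simp
  · refine sum_congr rfl fun j hj => ?_
    rw [mem_Icc] at hj
    rw [if_neg (by omega), mul_one]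

/-- A linear form times a fixed element. -/
lemma lin_mul' {S : Type u} [CommRing S] [Algebra k S] (n : ℕ) (c : ℕ → k) (X : ℕ → S)
    (e f : S) (g : ℕ → k)
    (h : ∀ j ∈ range n, e * X j = algebraMap k S (g j) * f) :
    e * ∑ j ∈ range n, algebraMap k S (c j) * X j =
      algebraMap k S (∑ j ∈ range n, c j * g j) * f := by
  rw [mul_sum, map_sum, sum_mul]
  refine sum_congr rfl fun j hj => ?_
  rw [mul_left_comm, h j hj, map_mul]
  ring

/-- `PB` times a linear form in the `U j`. -/
lemma PB_lin (m : ℕ) (c : ℕ → k) :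
    (-2 * (UU k 0 * UU k (m + 2) * pth (UU k) 1 (m + 1))) *
      ∑ j ∈ range (m + 3), algebraMap k (Sq k) (c j) * UU k j =
      algebraMap k (Sq k) (-2 * ∑ j ∈ Icc 1 (m + 1), c j) * (UU k (m + 2) * WY (UU k) m) := by
  rw [lin_mul' (m + 3) c (UU k) _ (UU k (m + 2) * WY (UU k) m)
    (fun j => if 1 ≤ j ∧ j ≤ m + 1 then -2 else 0), sum_g]
  intro j hj
  rw [mem_range] at hj
  split_ifs with h
  · rw [PB_mul UU_sq m j h.1 h.2]
    simp only [map_neg, map_ofNat]
  · rw [map_zero, zero_mul]
    rcases Nat.eq_zero_or_pos j with h0 | h0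
    · subst h0
      exact PB_mul0 UU_sq m
    · obtain rfl : j = m + 2 := by omega
      exact PB_mulL UU_sq m

/-- `PA` times a linear form in the `Y j`. -/
lemma PA_lin (m : ℕ) (c : ℕ → k) :
    ((YY k 0 - YY k (m + 1)) * pth (YY k) 1 (m + 1)) *
      ∑ j ∈ range (m + 2), algebraMap k (Sq k) (c j) * YY k j =
      algebraMap k (Sq k) (-c 0 + ∑ j ∈ Icc 1 (m + 1), c j) * WY (YY k) m := by
  rw [lin_mul' (m + 2) c (YY k) _ (WY (YY k) m) (fun j => if j = 0 then -1 else 1), sum_g']
  intro j hj
  rw [mem_range] at hj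
  split_ifs with h
  · subst h
    rw [AL_mul0 YY_sq m, map_neg, map_one]
    ring
  · rw [AL_mul YY_sq m j (by omega) (by omega), map_one, one_mul]

lemma UW_lin (m : ℕ) (c : ℕ → k) :
    (UU k (m + 2) * WY (UU k) m) *
      ∑ j ∈ range (m + 3), algebraMap k (Sq k) (c j) * UU k j = 0 := by
  rw [mul_sum]
  refine sum_eq_zero fun j hj => ?_
  rw [mem_range] at hj
  rw [mul_left_comm, UW_mul UU_sq m j (by omega), mul_zero]

/-- The tangent space is at most `t`-dimensional. -/
theorem tdim (h2 : (2 : k) ≠ 0) (m : ℕ) (δ : ℕ → k)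
    (hδ : Tan (2 * m + 4) (2 * m + 4) (2 * m + 5) (qe k m) δ) (hB : ∀ j ∈ BB m, δ j = 0) :
    ∀ j, 1 ≤ j → j ≤ 4 * m + 8 → δ j = 0 := by
  have E := first_order m δ hδ
  set Do : ℕ → Sq k := fun i => row (2 * m + 5) δ (sqx k) (2 * i + 1) with hDo
  set De : ℕ → Sq k := fun i => row (2 * m + 5) δ (sqx k) (2 * i) with hDe
  set v : ℕ → k := fun l => δ (2 * l + 2) with hv
  have eDo : ∀ i ≤ m + 1, Do i =
      ∑ j ∈ range (m + 3), algebraMap k (Sq k) (v (i + j)) * UU k j := by
    intro i hi
    simp only [hDo]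
    rw [row_odd_B m δ hB _ i hi]
    rfl
  have eDe : ∀ i ≤ m + 1, De i = algebraMap k (Sq k) (if i = 0 then δ 1 else 0) * UU k 0 +
      ∑ j ∈ range (m + 2), algebraMap k (Sq k) (v (i + j)) * YY k j := by
    intro i hi
    simp only [hDe]
    rw [row_even_B m δ hB _ i hi]
    rfl
  have four : ∀ c : k, 2 * c = 0 → c = 0 := fun c hc => (mul_eq_zero.1 hc).resolve_left h2
  -- first relation
  have A0 : ∀ i ≤ m, ∑ j ∈ Icc 1 (m + 1), v (i + j) = 0 := by
    intro i hi
    have h := relE1 m YY_sq UU_sq Do De E i hi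
    rw [eDo i (by omega), PB_lin m (fun j => v (i + j))] at h
    have h' : algebraMap k (Sq k) (2 * (-2 * ∑ j ∈ Icc 1 (m + 1), v (i + j))) *
        (WY (YY k) m * (UU k (m + 2) * WY (UU k) m)) = 0 := by
      rw [map_mul, map_ofNat, ← h]
      ring
    have h3 := four _ (four _ (by linear_combination -(top_ne m _ h')))
    exact h3
  -- second relation
  have A1 : ∀ i ≤ m + 1, ∑ j ∈ Icc 1 (m + 1), v (i + j) = v i := by
    intro i hi
    have h := relE2 m YY_sq UU_sq Do De E (fun i hi => by rw [eDo i hi, UW_lin m]) i hi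
    rw [eDe i hi, mul_add, PA_lin m (fun j => v (i + j))] at h
    have h0 : (UU k (m + 2) * WY (UU k) m) * UU k 0 = 0 := UW_mul UU_sq m 0 (by omega)
    have h' : algebraMap k (Sq k) (2 * (-v (i + 0) + ∑ j ∈ Icc 1 (m + 1), v (i + j))) *
        (WY (YY k) m * (UU k (m + 2) * WY (UU k) m)) = 0 := by
      rw [map_mul, map_ofNat, ← h]
      linear_combination (-(2 * ((YY k 0 - YY k (m + 1)) * pth (YY k) 1 (m + 1)) *
        algebraMap k (Sq k) (if i = 0 then δ 1 else 0))) * h0
    have h3 := four _ (top_ne m _ h')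
    rw [add_zero] at h3
    linear_combination h3
  -- all `v` vanish
  have V : ∀ l, l ≤ 2 * m + 2 → v l = 0 := by
    intro l
    induction l using Nat.strong_induction_on with
    | _ l ih =>
      intro hl
      rcases Nat.lt_or_ge m l with h | h
      · obtain ⟨i, rfl⟩ : ∃ i, l = i + (m + 1) := ⟨l - (m + 1), by omega⟩
        have hA : ∑ j ∈ Icc 1 (m + 1), v (i + j) = 0 := by
          rcases Nat.lt_or_ge m i with h' | h'
          · rw [A1 i (by omega)]
            exact ih i (by omega) (by omega)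
          · exact A0 i h'
        rw [sum_Icc_succ_top (by omega)] at hA
        rw [sum_eq_zero, zero_add] at hA
        · exact hA
        · intro j hj
          rw [mem_Icc] at hj
          exact ih _ (by omega) (by omega)
      · rw [← A1 l (by omega), A0 l h]
  have vL : v (2 * m + 3) = 0 := by
    simp only [hv]
    refine hB _ ?_
    unfold BB
    rw [mem_insert]
    left
    ring
  have V' : ∀ l, l ≤ 2 * m + 3 → v l = 0 := by
    intro l hl
    rcases Nat.lt_or_ge l (2 * m + 3) with h | h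
    · exact V l (by omega)
    · obtain rfl : l = 2 * m + 3 := by omega
      exact vL
  have d1z : δ 1 = 0 := by
    have hy : ∀ i ≤ m + 1, ∑ j ∈ range (m + 2),
        algebraMap k (Sq k) (v (i + j)) * YY k j = 0 := by
      intro i hi
      refine sum_eq_zero fun j hj => ?_
      rw [mem_range] at hj
      rw [V' _ (by omega), map_zero, zero_mul]
    have h := relE3 m YY_sq UU_sq Do De E (fun i h1 h2 => by
      rw [eDe i h2, hy i h2, if_neg (by omega), map_zero, zero_mul, add_zero, mul_zero]) (by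
      rw [eDo (m + 1) le_rfl, sum_eq_zero, mul_zero]
      intro j hj
      rw [mem_range] at hj
      rw [V' _ (by omega), map_zero, zero_mul])
    rw [eDe 0 (by omega), hy 0 (by omega), if_pos rfl, add_zero] at h
    have h' : algebraMap k (Sq k) (2 * δ 1) *
        (WY (YY k) m * (UU k (m + 2) * WY (UU k) m)) = 0 := by
      rw [map_mul, map_ofNat, ← neg_eq_zero, ← h]
      have h4 : ((UU k 0 - UU k (m + 1)) * pth (UU k) 1 (m + 1)) * UU k 0 = - WY (UU k) m :=
        AL_mul0 UU_sq m
      linear_combination (-2 * WY (YY k) m * UU k (m + 2) * algebraMap k (Sq k) (δ 1)) * h4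
    exact four _ (top_ne m _ h')
  intro j h1 h2
  rcases Nat.even_or_odd' j with ⟨c, hc | hc⟩
  · have := V' (c - 1) (by omega)
    simp only [hv] at this
    rwa [show 2 * (c - 1) + 2 = j by omega] at this
  · rcases Nat.eq_zero_or_pos c with h0 | h0
    · subst h0
      rw [hc]
      exact d1z
    · refine hB _ ?_
      unfold BB
      rw [mem_insert, mem_image]
      exact Or.inr ⟨c - 1, by rw [mem_range]; omega, by omega⟩

end Pool.Agent.Helper55K9.HK.Ev
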