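import Pool.Agent.Helper55K9.HK.Ev3

/-!
# The second order coefficient
-/

set_option autoImplicit false

namespace Pool.Agent.Helper55K9.HK.Ev

open Finset

variable {S : Type*} [CommRing S]

/-- The windows of the tangent vector. -/
def WW (X : ℕ → S) (m i : ℕ) : S :=
  if i = 0 then X 0 + X 1 - X (m + 1) else if i = m + 1 then -X 0 + X 1 - 2 * X (m + 1) else
    if i = 1 then X 0 - X m + X (m + 1) else -X (m + 1 - i) + X (m + 2 - i)

section

variable (X : ℕ → S) (m : ℕ)

lemma WW_zero : WW X m 0 = X 0 + X 1 - X (m + 1) := by simp [WW]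

lemma WW_last : WW X m (m + 1) = -X 0 + X 1 - 2 * X (m + 1) := by
  unfold WW
  rw [if_neg (by omega), if_pos rfl]

lemma WW_one (hm : 1 ≤ m) : WW X m 1 = X 0 - X m + X (m + 1) := by
  unfold WW
  rw [if_neg (by omega), if_neg (by omega), if_pos rfl]

lemma WW_mid {i : ℕ} (h1 : 2 ≤ i) (h2 : i ≤ m) : WW X m i = -X (m + 1 - i) + X (m + 2 - i) := by
  unfold WW
  rw [if_neg (by omega), if_neg (by omega), if_neg (by omega)]

end

lemma range3 {m : ℕ} (hm : 1 ≤ m) :
    range (m + 2) = insert 0 (insert 1 (insert (m + 1) (Icc 2 m))) := by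
  ext r
  simp only [mem_range, mem_insert, mem_Icc]
  omega

lemma sum_range3 {m : ℕ} (hm : 1 ≤ m) (f : ℕ → S) :
    ∑ i ∈ range (m + 2), f i = f 0 + f 1 + f (m + 1) + ∑ i ∈ Icc 2 m, f i := by
  rw [range3 hm, sum_insert, sum_insert, sum_insert]
  · ring
  · simp
  · simp only [mem_insert, mem_Icc, not_or]
    omega
  · simp only [mem_insert, mem_Icc, not_or]
    omega

section

variable {Y U : ℕ → S} (hY : ∀ j, Y j * Y j = 0) (hU : ∀ j, U j * U j = 0) {m : ℕ}

include hY in
lemma Ao_WW {i : ℕ} (h1 : 2 ≤ i) (h2 : i ≤ m) : Ao Y m i * WW Y m i = 0 := by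
  rw [WW_mid Y m h1 h2]
  unfold Ao
  rw [if_neg (by omega)]
  linear_combination hY (m + 1 - i) - hY (m + 2 - i)

include hU in
lemma Bo_WW {i : ℕ} (h1 : 2 ≤ i) (h2 : i ≤ m) : Bo U m (i + 1) * WW U m i = 0 := by
  rw [WW_mid U m h1 h2]
  unfold Bo
  rw [if_neg (by omega), if_neg (by omega), show m + 2 - (i + 1) = m + 1 - i by omega,
    show m + 3 - (i + 1) = m + 2 - i by omega]
  linear_combination hU (m + 1 - i) - hU (m + 2 - i)

lemma erase_mul_zero {T : Finset ℕ} {i j : ℕ} (hi : i ∈ T) (hij : i ≠ j) (L : ℕ → S) (Λ : S)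
    (h : L i * Λ = 0) : (∏ r ∈ T.erase j, L r) * Λ = 0 := by
  rw [← mul_prod_erase (T.erase j) L (mem_erase.2 ⟨hij, hi⟩)]
  linear_combination (∏ x ∈ (T.erase j).erase i, L x) * h

/-- The values on the first product. -/
lemma eA (hY : ∀ j, Y j * Y j = 0) (hm : 1 ≤ m) :
    let A : ℕ → S := fun i => ∏ r ∈ (range (m + 2)).erase i, Ao Y m r
    A 0 * WW Y m 0 = -WY Y m ∧ A 0 * WW Y m 1 = -WY Y m ∧ A 0 * WW Y m (m + 1) = 2 * WY Y m ∧
    A 1 * WW Y m 0 = -3 * WY Y m ∧ A 1 * WW Y m 1 = WY Y m ∧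
    A 1 * WW Y m (m + 1) = -2 * WY Y m ∧
    A (m + 1) * WW Y m 0 = -WY Y m ∧ A (m + 1) * WW Y m 1 = -WY Y m ∧
    A (m + 1) * WW Y m (m + 1) = 0 ∧ A m * WW Y m (m + 1) = -2 * WY Y m ∧
    A (m + 1) * Y (m + 1) = WY Y m := by
  intro A
  have a0 : ∀ j ≤ m + 1, A 0 * Y j = -WY Y m := by
    intro j hj
    simp only [A]
    rw [Ao_e0]
    exact A0_mul hY m j hj
  have aL0 : A (m + 1) * Y 0 = -WY Y m := by
    simp only [A]
    rw [Ao_eL]
    exact AL_mul0 hY m
  have aL : ∀ j, 1 ≤ j → j ≤ m + 1 → A (m + 1) * Y j = WY Y m := by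
    intro j h1 h2
    simp only [A]
    rw [Ao_eL]
    exact AL_mul hY m j h1 h2
  have a1 : ∀ j ≤ m, A 1 * Y j = -WY Y m := by
    intro j hj
    simp only [A]
    rw [Ao_eM Y m le_rfl hm]
    have := AM_mul hY m (j := m) hm le_rfl j
    rw [if_pos hj] at this
    exact this
  have a1' : A 1 * Y (m + 1) = WY Y m := by
    simp only [A]
    rw [Ao_eM Y m le_rfl hm]
    have := AM_mul hY m (j := m) hm le_rfl (m + 1)
    rw [if_neg (by omega), if_pos le_rfl] at this
    exact this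
  have am : ∀ j ≤ 1, A m * Y j = -WY Y m := by
    intro j hj
    simp only [A]
    rw [Ao_eM Y m hm le_rfl, show m + 1 - m = 1 by omega, show m + 2 - m = 1 + 1 by omega]
    have := AM_mul hY m (j := 1) le_rfl hm j
    rw [if_pos hj] at this
    exact this
  have am' : A m * Y (m + 1) = WY Y m := by
    simp only [A]
    rw [Ao_eM Y m hm le_rfl, show m + 1 - m = 1 by omega, show m + 2 - m = 1 + 1 by omega]
    have := AM_mul hY m (j := 1) le_rfl hm (m + 1)
    rw [if_neg (by omega), if_pos le_rfl] at this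
    exact this
  rw [WW_zero, WW_last, WW_one Y m hm]
  refine ⟨?_, ?_, ?_, ?_, ?_, ?_, ?_, ?_, ?_, ?_, aL _ (by omega) le_rfl⟩
  · linear_combination a0 0 (by omega) + a0 1 (by omega) - a0 (m + 1) le_rfl
  · linear_combination a0 0 (by omega) - a0 m (by omega) + a0 (m + 1) le_rfl
  · linear_combination -a0 0 (by omega) + a0 1 (by omega) - 2 * a0 (m + 1) le_rfl
  · linear_combination a1 0 (by omega) + a1 1 (by omega) - a1'
  · linear_combination a1 0 (by omega) - a1 m (by omega) + a1'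
  · linear_combination -a1 0 (by omega) + a1 1 (by omega) - 2 * a1'
  · linear_combination aL0 + aL 1 (by omega) (by omega) - aL (m + 1) (by omega) le_rfl
  · linear_combination aL0 - aL m (by omega) (by omega) + aL (m + 1) (by omega) le_rfl
  · linear_combination -aL0 + aL 1 (by omega) (by omega) - 2 * aL (m + 1) (by omega) le_rfl
  · linear_combination -am 0 (by omega) + am 1 (by omega) - 2 * am'

/-- The values on the second product. -/
lemma eB (hU : ∀ j, U j * U j = 0) (hm : 1 ≤ m) :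
    let B : ℕ → S := fun i => ∏ r ∈ (range (m + 2)).erase i, Bo U m r
    WW U m 0 * B 0 = -WY U m ∧ WW U m 1 * B 0 = -WY U m ∧ WW U m (m + 1) * B 0 = 0 ∧
    WW U m 0 * B 1 = WY U m ∧ WW U m 1 * B 1 = WY U m ∧ WW U m (m + 1) * B 1 = -2 * WY U m ∧
    WW U m 0 * B (m + 1) = 3 * WY U m ∧
    (m = 1 → WW U m 1 * B (m + 1) = -WY U m) ∧ (2 ≤ m → WW U m 1 * B (m + 1) = WY U m) ∧
    (2 ≤ m → WW U m m * B (m + 1) = -2 * WY U m) ∧
    WW U m (m + 1) * B (m + 1) = 2 * WY U m ∧ U 0 * B 0 = -WY U m := by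
  intro B
  have b00 : B 0 * U 0 = -WY U m := by
    simp only [B]
    rw [Bo_e0]
    exact AL_mul0 hU m
  have b0 : ∀ j, 1 ≤ j → j ≤ m + 1 → B 0 * U j = WY U m := by
    intro j h1 h2
    simp only [B]
    rw [Bo_e0]
    exact AL_mul hU m j h1 h2
  have b1 : ∀ j ≤ m + 1, B 1 * U j = WY U m := by
    intro j hj
    simp only [B]
    rw [Bo_e1]
    linear_combination -A0_mul hU m j hj
  have bL : ∀ j ≤ 1, B (m + 1) * U j = WY U m := by
    intro j hj
    simp only [B]
    rw [Bo_eM U m (by omega) le_rfl, show m + 2 - (m + 1) = 1 by omega,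
      show m + 3 - (m + 1) = 1 + 1 by omega]
    have := AM_mul hU m (j := 1) le_rfl hm j
    rw [if_pos hj] at this
    linear_combination -this
  have bL' : ∀ j, 2 ≤ j → j ≤ m + 1 → B (m + 1) * U j = -WY U m := by
    intro j h1 h2
    simp only [B]
    rw [Bo_eM U m (by omega) le_rfl, show m + 2 - (m + 1) = 1 by omega,
      show m + 3 - (m + 1) = 1 + 1 by omega]
    have := AM_mul hU m (j := 1) le_rfl hm j
    rw [if_neg (by omega), if_pos h2] at this
    linear_combination -this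
  rw [WW_zero, WW_last, WW_one U m hm]
  refine ⟨?_, ?_, ?_, ?_, ?_, ?_, ?_, ?_, ?_, ?_, ?_, ?_⟩
  · linear_combination b00 + b0 1 (by omega) (by omega) - b0 (m + 1) (by omega) le_rfl
  · linear_combination b00 - b0 m (by omega) (by omega) + b0 (m + 1) (by omega) le_rfl
  · linear_combination -b00 + b0 1 (by omega) (by omega) - 2 * b0 (m + 1) (by omega) le_rfl
  · linear_combination b1 0 (by omega) + b1 1 (by omega) - b1 (m + 1) le_rfl
  · linear_combination b1 0 (by omega) - b1 m (by omega) + b1 (m + 1) le_rfl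
  · linear_combination -b1 0 (by omega) + b1 1 (by omega) - 2 * b1 (m + 1) le_rfl
  · linear_combination bL 0 (by omega) + bL 1 (by omega) - bL' (m + 1) (by omega) le_rfl
  · intro h
    have := bL m (by omega)
    linear_combination bL 0 (by omega) - this + bL' (m + 1) (by omega) le_rfl
  · intro h
    linear_combination bL 0 (by omega) - bL' m h (by omega) + bL' (m + 1) (by omega) le_rfl
  · intro h
    rw [WW_mid U m h le_rfl, show m + 1 - m = 1 by omega, show m + 2 - m = 2 by omega]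
    linear_combination -bL 1 (by omega) + bL' 2 (by omega) (by omega)
  · linear_combination -bL 0 (by omega) + bL 1 (by omega) - 2 * bL' (m + 1) (by omega) le_rfl
  · linear_combination b00

/-- The second order coefficient is `16`. -/
theorem second (hY : ∀ j, Y j * Y j = 0) (hU : ∀ j, U j * U j = 0) (hm : 1 ≤ m)
    (Do De : ℕ → S) (hDo : ∀ i ≤ m, Do i = WW U m i)
    (hDoL : Do (m + 1) = WW U m (m + 1) - Y (m + 1))
    (hDe : ∀ i, 1 ≤ i → i ≤ m + 1 → De i = WW Y m i) (hDe0 : De 0 = WW Y m 0 + 2 * U 0) :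
    d1 (range (m + 2)) (Ao Y m) Do * d1 (range (m + 2)) (Bo U m) De =
      16 * (WY Y m * WY U m) := by
  obtain ⟨a1, a2, a3, a4, a5, a6, a7, a8, a9, a10, a11⟩ := eA hY hm
  obtain ⟨b1, b2, b3, b4, b5, b6, b7, b8, b9, b10, b11, b12⟩ := eB hU hm
  have wy := WY_mul hY m (m + 1) le_rfl
  have wu := WY_mul hU m 0 (by omega)
  set A : ℕ → S := fun i => ∏ r ∈ (range (m + 2)).erase i, Ao Y m r with hA
  set B : ℕ → S := fun i => ∏ r ∈ (range (m + 2)).erase i, Bo U m r with hB
  have e : d1 (range (m + 2)) (Ao Y m) Do * d1 (range (m + 2)) (Bo U m) De =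
      ∑ i' ∈ range (m + 2), ∑ i ∈ range (m + 2), (Do i * A i) * (De i' * B i') := by
    unfold d1
    rw [mul_sum]
    refine sum_congr rfl fun i' _ => ?_
    rw [sum_mul]
  have z1 : ∀ i', 2 ≤ i' → i' ≤ m → ∀ i, i ≠ i' → A i * De i' = 0 := by
    intro i' h1 h2 i hi
    rw [hDe i' (by omega) (by omega)]
    exact erase_mul_zero (mem_range.2 (by omega)) hi.symm _ _ (Ao_WW hY h1 h2)
  have z2 : ∀ i, 2 ≤ i → i ≤ m → ∀ i', i' ≠ i + 1 → B i' * Do i = 0 := by
    intro i h1 h2 i' hi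
    rw [hDo i h2]
    exact erase_mul_zero (mem_range.2 (by omega)) hi.symm _ _ (Bo_WW hU h1 h2)
  -- the middle rows do not contribute
  have g2 : ∀ i' ∈ Icc 2 m, ∑ i ∈ range (m + 2), (Do i * A i) * (De i' * B i') = 0 := by
    intro i' hi'
    rw [mem_Icc] at hi'
    refine sum_eq_zero fun i _ => ?_
    by_cases h : i = i'
    · subst h
      linear_combination (A i * De i) * z2 i hi'.1 hi'.2 i (by omega)
    · linear_combination (Do i * B i') * z1 i' hi'.1 hi'.2 i h
  have g0 : ∑ i ∈ range (m + 2), (Do i * A i) * (De 0 * B 0) = 6 * (WY Y m * WY U m) := by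
    rw [sum_range3 hm, sum_eq_zero (s := Icc 2 m), add_zero, hDo 0 (by omega), hDo 1 hm, hDoL,
      hDe0]
    · linear_combination (WW U m 0 * B 0) * a1 + (WW U m 1 * B 0) * a4 +
        (WW U m (m + 1) * B 0) * a7 +
        (-WY Y m) * b1 + (-3 * WY Y m) * b2 + (-WY Y m) * b3 +
        (2 * U 0 * A 0) * b1 + (2 * U 0 * A 1) * b2 + (2 * U 0 * A (m + 1)) * b3 -
        (2 * A 0 + 2 * A 1) * wu - (Y (m + 1) * B 0) * a7 + B 0 * wy -
        2 * (A (m + 1) * Y (m + 1)) * b12 + 2 * WY U m * a11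
    · intro i hi
      rw [mem_Icc] at hi
      linear_combination (A i * De 0) * z2 i hi.1 hi.2 0 (by omega)
  have g1 : ∑ i ∈ range (m + 2), (Do i * A i) * (De 1 * B 1) = 2 * (WY Y m * WY U m) := by
    rw [sum_range3 hm, sum_eq_zero (s := Icc 2 m), add_zero, hDo 0 (by omega), hDo 1 hm, hDoL,
      hDe 1 le_rfl (by omega)]
    · linear_combination (WW U m 0 * B 1) * a2 + (WW U m 1 * B 1) * a5 +
        (WW U m (m + 1) * B 1) * a8 +
        (-WY Y m) * b4 + (WY Y m) * b5 + (-WY Y m) * b6 - (Y (m + 1) * B 1) * a8 + B 1 * wy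
    · intro i hi
      rw [mem_Icc] at hi
      linear_combination (A i * De 1) * z2 i hi.1 hi.2 1 (by omega)
  have gL : ∑ i ∈ range (m + 2), (Do i * A i) * (De (m + 1) * B (m + 1)) =
      8 * (WY Y m * WY U m) := by
    rcases Nat.lt_or_ge m 2 with h | h
    · have h1 : m = 1 := by omega
      have c1 := b8 h1
      rw [sum_range3 hm, sum_eq_zero (s := Icc 2 m), add_zero, hDo 0 (by omega), hDo 1 hm, hDoL,
        hDe (m + 1) (by omega) le_rfl]
      · linear_combination (WW U m 0 * B (m + 1)) * a3 + (WW U m 1 * B (m + 1)) * a6 +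
          (WW U m (m + 1) * B (m + 1)) * a9 +
          (2 * WY Y m) * b7 + (-2 * WY Y m) * c1 - (Y (m + 1) * B (m + 1)) * a9
      · intro i hi
        rw [mem_Icc] at hi
        omega
    · have c1 := b9 h
      have c2 := b10 h
      rw [sum_range3 hm, sum_eq_single (s := Icc 2 m) m, hDo 0 (by omega), hDo 1 hm, hDoL,
        hDe (m + 1) (by omega) le_rfl, hDo m le_rfl]
      · linear_combination (WW U m 0 * B (m + 1)) * a3 + (WW U m 1 * B (m + 1)) * a6 +
          (WW U m (m + 1) * B (m + 1)) * a9 + (WW U m m * B (m + 1)) * a10 +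
          (2 * WY Y m) * b7 + (-2 * WY Y m) * c1 + (-2 * WY Y m) * c2 -
          (Y (m + 1) * B (m + 1)) * a9
      · intro i hi him
        rw [mem_Icc] at hi
        linear_combination (A i * De (m + 1)) * z2 i hi.1 hi.2 (m + 1) (by omega)
      · intro hmm
        exact absurd (mem_Icc.2 ⟨h, le_rfl⟩) hmm
  rw [e, sum_range3 hm, sum_eq_zero g2, g0, g1, gL]
  ring

end

end Pool.Agent.Helper55K9.HK.Ev
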