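import Pool.Agent.Helper55K9.HK.Ev5
import Pool.Agent.Helper55K9.HK.Ev6

/-!
# The case `n = t + 1`, `t` even, `t ≥ 6`
-/

set_option autoImplicit false

namespace Pool.Agent.Helper55K9.HK.Ev

open Finset Pool.Agent.Helper86K9.HK

universe u

section

variable {S : Type*} [CommRing S] {Y U : ℕ → S} {m : ℕ}

/-- The first order equation for the tangent vector. -/
theorem tan_val (hY : ∀ j, Y j * Y j = 0) (hU : ∀ j, U j * U j = 0) (hm : 1 ≤ m)
    (Do De : ℕ → S) (c d : ℕ → S)
    (hDo : ∀ i ≤ m + 1, Do i = WW U m i + c i * U (m + 2) - if i = m + 1 then Y (m + 1) else 0)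
    (hDe : ∀ i ≤ m + 1, De i = WW Y m i + (if i = 0 then 2 * U 0 else 0) + d i * U (m + 2)) :
    d1 (range (m + 2)) (Lo Y U m) Do * ∏ i ∈ range (m + 2), Le U m i +
      (∏ i ∈ range (m + 2), Lo Y U m i) * d1 (range (m + 2)) (Le U m) De = 0 := by
  rw [Le_eval m hU, Lo_eval m hY]
  have pb : ∀ j, 1 ≤ j → j ≤ m + 1 →
      (-2 * (U 0 * U (m + 2) * pth U 1 (m + 1))) * U j = -2 * (U (m + 2) * WY U m) :=
    fun j h1 h2 => PB_mul hU m j h1 h2
  have pb0 := PB_mul0 hU m
  have pbL := PB_mulL hU m
  set PB := -2 * (U 0 * U (m + 2) * pth U 1 (m + 1)) with hPB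
  have al0 := AL_mul0 hY m
  have al : ∀ j, 1 ≤ j → j ≤ m + 1 →
      ((Y 0 - Y (m + 1)) * pth Y 1 (m + 1)) * Y j = WY Y m := fun j h1 h2 => AL_mul hY m j h1 h2
  set AL := (Y 0 - Y (m + 1)) * pth Y 1 (m + 1) with hAL
  -- the odd rows
  have h1 : PB * d1 (range (m + 2)) (Lo Y U m) Do =
      (2 * (U (m + 2) * WY U m) - PB * Y (m + 1)) * AL := by
    have e1 : PB * d1 (range (m + 2)) (Lo Y U m) Do = PB * d1 (range (m + 2)) (Ao Y m)
        (fun i => WW U m i - if i = m + 1 then Y (m + 1) else 0) := by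
      refine mul_d1_congr PB (fun r _ => ?_) (fun r hr => ?_)
      · unfold Lo
        split_ifs
        · linear_combination pbL
        · rfl
      · rw [mem_range] at hr
        rw [hDo r (by omega)]
        linear_combination (c r) * pbL
    rw [e1]
    unfold d1
    rw [mul_sum, sum_eq_single (m + 1)]
    · beta_reduce
      rw [Ao_eL, if_pos rfl, WW_last, ← hAL]
      linear_combination AL * (-pb0 + pb 1 le_rfl (by omega) - 2 * pb (m + 1) (by omega) le_rfl)
    · intro i hi him
      rw [mem_range] at hi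
      beta_reduce
      rw [if_neg him, sub_zero]
      have hz : PB * WW U m i = 0 := by
        rcases Nat.eq_zero_or_pos i with h | h
        · subst h
          rw [WW_zero]
          linear_combination pb0 + pb 1 le_rfl (by omega) - pb (m + 1) (by omega) le_rfl
        · rcases Nat.lt_or_ge i 2 with h' | h'
          · obtain rfl : i = 1 := by omega
            rw [WW_one U m hm]
            linear_combination pb0 - pb m hm (by omega) + pb (m + 1) (by omega) le_rfl
          · rw [WW_mid U m h' (by omega)]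
            linear_combination -pb (m + 1 - i) (by omega) (by omega) +
              pb (m + 2 - i) (by omega) (by omega)
      linear_combination (∏ r' ∈ (range (m + 2)).erase i, Ao Y m r') * hz
    · intro h
      exact absurd (mem_range.2 (by omega)) h
  -- the even rows
  have h2 : AL * U (m + 2) * d1 (range (m + 2)) (Le U m) De =
      U (m + 2) * (-WY Y m * ((U 0 - U (m + 1)) * pth U 1 (m + 1) +
        (U 0 + U 1) * pth U 1 (m + 1)) + 2 * U 0 * AL * ((U 0 - U (m + 1)) * pth U 1 (m + 1))) := by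
    have e1 : AL * U (m + 2) * d1 (range (m + 2)) (Le U m) De =
        AL * U (m + 2) * d1 (range (m + 2)) (Bo U m)
        (fun i => WW Y m i + if i = 0 then 2 * U 0 else 0) := by
      refine mul_d1_congr _ (fun r _ => ?_) (fun r hr => ?_)
      · unfold Le
        split_ifs
        · linear_combination (-AL) * hU (m + 2)
        · rfl
      · rw [mem_range] at hr
        rw [hDe r (by omega)]
        linear_combination (AL * d r) * hU (m + 2)
    have w0 : AL * WW Y m 0 = -WY Y m := by
      rw [WW_zero]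
      linear_combination al0 + al 1 le_rfl (by omega) - al (m + 1) (by omega) le_rfl
    have w1 : AL * WW Y m 1 = -WY Y m := by
      rw [WW_one Y m hm]
      linear_combination al0 - al m hm (by omega) + al (m + 1) (by omega) le_rfl
    have wL : AL * WW Y m (m + 1) = 0 := by
      rw [WW_last]
      linear_combination -al0 + al 1 le_rfl (by omega) - 2 * al (m + 1) (by omega) le_rfl
    rw [e1]
    unfold d1
    rw [mul_sum, sum_range3 hm, sum_eq_zero (s := Icc 2 m)]
    · beta_reduce
      rw [Bo_e0, Bo_e1, if_pos rfl, if_neg one_ne_zero, if_neg (Nat.succ_ne_zero m)]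
      linear_combination (U (m + 2) * ((U 0 - U (m + 1)) * pth U 1 (m + 1))) * w0 +
        (U (m + 2) * ((U 0 + U 1) * pth U 1 (m + 1))) * w1 +
        (U (m + 2) * ∏ r' ∈ (range (m + 2)).erase (m + 1), Bo U m r') * wL
    · intro i hi
      rw [mem_Icc] at hi
      beta_reduce
      rw [if_neg (by omega), WW_mid Y m hi.1 hi.2]
      linear_combination (U (m + 2) * ∏ r' ∈ (range (m + 2)).erase i, Bo U m r') *
        (al (m + 2 - i) (by omega) (by omega) - al (m + 1 - i) (by omega) (by omega))
  have h3 := p_eq hU m (m + 1) (by omega) le_rfl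
  have h4 := AL_mul0 hU m
  have h5 := al (m + 1) (by omega) le_rfl
  rw [h2, mul_comm (d1 (range (m + 2)) (Lo Y U m) Do) PB, h1]
  rw [hPB]
  unfold WY at h4 h5 ⊢
  linear_combination (2 * U 0 * U (m + 2) * pth U 1 (m + 1)) * h5 + (2 * U (m + 2) * AL) * h4 +
    U (m + 2) * (Y 0 * (pth Y 1 (m + 1) * Y 1)) * h3

end

section vec

variable {k : Type u} [Field k]

/-- The tangent vector. -/
def ae (k : Type*) [Field k] (m j : ℕ) : k :=
  if j = 1 then 2 else if j = 2 ∨ j = 4 ∨ j = 2 * m + 6 then 1 else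
    if j = 2 * m + 4 ∨ j = 4 * m + 7 then -1 else if j = 4 * m + 6 then -2 else 0

lemma ae_odd (m l : ℕ) : ae k m (2 * l + 1) = (if l = 0 then (1 : k) else 0) +
    (if l = 0 then 1 else 0) - (if l = 2 * m + 3 then 1 else 0) := by
  unfold ae
  split_ifs <;> first | (exfalso; omega) | norm_num

lemma ae_even (m l : ℕ) (hm : 1 ≤ m) : ae k m (2 * l + 2) = (if l = 0 then (1 : k) else 0) +
    (if l = 1 then 1 else 0) - (if l = m + 1 then 1 else 0) + (if l = m + 2 then 1 else 0) -
    (if l = 2 * m + 2 then 1 else 0) - (if l = 2 * m + 2 then 1 else 0) := by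
  unfold ae
  split_ifs <;> first | (exfalso; omega) | norm_num

/-- A picked entry. -/
def pv {S : Type*} [Zero S] (n i c : ℕ) (X : ℕ → S) : S :=
  if i ≤ c ∧ c - i < n then X (c - i) else 0

lemma pv_pos {S : Type*} [Zero S] {n i c d : ℕ} (X : ℕ → S) (h : i ≤ c) (h1 : c - i < n)
    (h2 : c - i = d) : pv n i c X = X d := by
  unfold pv
  rw [if_pos ⟨h, h1⟩, h2]

lemma pv_neg {S : Type*} [Zero S] {n i c : ℕ} (X : ℕ → S) (h : ¬ (i ≤ c ∧ c - i < n)) :
    pv n i c X = 0 := if_neg h

variable {S : Type*} [CommRing S] [Algebra k S]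

lemma pick' (n i c : ℕ) (X : ℕ → S) :
    ∑ j ∈ range n, (if i + j = c then (1 : k) else 0) • X j = pv n i c X := pick n i c X

lemma win_ae (m n : ℕ) (hm : 1 ≤ m) (X : ℕ → S) (i : ℕ) :
    ∑ j ∈ range n, ae k m (2 * (i + j) + 2) • X j = pv n i 0 X + pv n i 1 X -
      pv n i (m + 1) X + pv n i (m + 2) X - pv n i (2 * m + 2) X - pv n i (2 * m + 2) X := by
  simp only [ae_even m _ hm, add_smul, sub_smul, sum_add_distrib, sum_sub_distrib, pick']

lemma win_ae_odd (m n : ℕ) (X : ℕ → S) (i : ℕ) :
    ∑ j ∈ range n, ae k m (2 * (i + j) + 1) • X j = pv n i 0 X + pv n i 0 X -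
      pv n i (2 * m + 3) X := by
  simp only [ae_odd m, add_smul, sub_smul, sum_add_distrib, sum_sub_distrib, pick']

lemma win_Y (m : ℕ) (hm : 1 ≤ m) (X : ℕ → S) (i : ℕ) (hi : i ≤ m + 1) :
    pv (m + 2) i 0 X + pv (m + 2) i 1 X -
      pv (m + 2) i (m + 1) X + pv (m + 2) i (m + 2) X - pv (m + 2) i (2 * m + 2) X -
      pv (m + 2) i (2 * m + 2) X = WW X m i := by
  rcases Nat.eq_zero_or_pos i with h | h
  · subst h
    rw [WW_zero, pv_pos (d := 0) X (by omega) (by omega) (by omega),
      pv_pos (d := 1) X (by omega) (by omega) (by omega),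
      pv_pos (d := m + 1) X (by omega) (by omega) (by omega),
      pv_neg X (by omega), pv_neg X (by omega)]
    ring
  · rw [pv_neg (c := 0) X (by omega)]
    rcases Nat.lt_or_ge m i with h' | h'
    · obtain rfl : i = m + 1 := by omega
      rw [WW_last, pv_neg (c := 1) X (by omega),
        pv_pos (d := 0) X (by omega) (by omega) (by omega),
        pv_pos (d := 1) X (by omega) (by omega) (by omega),
        pv_pos (d := m + 1) X (by omega) (by omega) (by omega)]
      ring
    · rw [pv_neg (c := 2 * m + 2) X (by omega)]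
      rcases Nat.lt_or_ge i 2 with h'' | h''
      · obtain rfl : i = 1 := by omega
        rw [WW_one X m hm, pv_pos (d := 0) X (by omega) (by omega) (by omega),
          pv_pos (d := m) X (by omega) (by omega) (by omega),
          pv_pos (d := m + 1) X (by omega) (by omega) (by omega)]
        ring
      · rw [WW_mid X m h'' h', pv_neg (c := 1) X (by omega),
          pv_pos (d := m + 1 - i) X (by omega) (by omega) (by omega),
          pv_pos (d := m + 2 - i) X (by omega) (by omega) (by omega)]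
        ring

/-- One more column. -/
lemma pv_succ (n i c : ℕ) (X : ℕ → S) :
    pv (n + 1) i c X = pv n i c X + (if i + n = c then 1 else 0) * X n := by
  unfold pv
  by_cases h : i + n = c
  · rw [if_pos (by omega), if_neg (by omega), if_pos h, show c - i = n by omega]
    ring
  · rw [if_neg h, zero_mul, add_zero]
    by_cases h1 : i ≤ c ∧ c - i < n
    · rw [if_pos (by omega), if_pos h1]
    · rw [if_neg (by omega), if_neg h1]

lemma row_ae_odd (m : ℕ) (hm : 1 ≤ m) (x : ℕ → S) (i : ℕ) (hi : i ≤ m + 1) :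
    ∃ c : S, row (2 * m + 5) (ae k m) x (2 * i + 1) = WW (fun j => x (2 * j + 1)) m i +
      c * x (2 * (m + 2) + 1) - if i = m + 1 then x (2 * (m + 1) + 2) else 0 := by
  rw [row_odd]
  have e : ∀ j, 2 * (i + j) + 3 = 2 * (i + 1 + j) + 1 := fun j => by ring
  simp only [e]
  rw [win_ae m (m + 3) hm (fun j => x (2 * j + 1)), win_ae_odd m (m + 2) (fun j => x (2 * j + 2)),
    ← win_Y m hm (fun j => x (2 * j + 1)) i hi]
  rw [pv_succ (m + 2) i 0, pv_succ (m + 2) i 1, pv_succ (m + 2) i (m + 1),
    pv_succ (m + 2) i (m + 2), pv_succ (m + 2) i (2 * m + 2),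
    pv_neg (i := i + 1) (c := 0) (fun j => x (2 * j + 2)) (by omega)]
  refine ⟨(if i + (m + 2) = 0 then 1 else 0) + (if i + (m + 2) = 1 then 1 else 0) -
    (if i + (m + 2) = m + 1 then 1 else 0) + (if i + (m + 2) = m + 2 then 1 else 0) -
    2 * (if i + (m + 2) = 2 * m + 2 then 1 else 0), ?_⟩
  have : pv (m + 2) (i + 1) (2 * m + 3) (fun j => x (2 * j + 2)) =
      if i = m + 1 then x (2 * (m + 1) + 2) else 0 := by
    split_ifs with h
    · subst h
      rw [pv_pos (d := m + 1) _ (by omega) (by omega) (by omega)]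
    · rw [pv_neg _ (by omega)]
  rw [this]
  ring

lemma row_ae_even (m : ℕ) (hm : 1 ≤ m) (x : ℕ → S) (i : ℕ) (hi : i ≤ m + 1) :
    ∃ c : S, row (2 * m + 5) (ae k m) x (2 * i) = WW (fun j => x (2 * j + 2)) m i +
      (if i = 0 then 2 * x (2 * 0 + 1) else 0) + c * x (2 * (m + 2) + 1) := by
  rw [row_even, win_ae m (m + 2) hm (fun j => x (2 * j + 2)),
    win_Y m hm (fun j => x (2 * j + 2)) i hi, win_ae_odd m (m + 3) (fun j => x (2 * j + 1)),
    pv_succ (m + 2) i 0, pv_succ (m + 2) i (2 * m + 3),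
    pv_neg (n := m + 2) (c := 2 * m + 3) (fun j => x (2 * j + 1)) (by omega)]
  refine ⟨2 * (if i + (m + 2) = 0 then 1 else 0) -
    (if i + (m + 2) = 2 * m + 3 then 1 else 0), ?_⟩
  have : pv (m + 2) i 0 (fun j => x (2 * j + 1)) =
      if i = 0 then x (2 * 0 + 1) else 0 := by
    split_ifs with h
    · subst h
      rw [pv_pos (d := 0) _ (by omega) (by omega) (by omega)]
    · rw [pv_neg _ (by omega)]
  rw [this]
  split_ifs <;> ring

end vec

end Pool.Agent.Helper55K9.HK.Ev
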