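import Pool.Agent.Helper55K9.HK.Ev7

/-!
# [EVEN] The case `n = t + 1`, `t` even, `t ≥ 6`
-/

set_option autoImplicit false

namespace Pool.Agent.Helper55K9.HK.Ev

open Finset Pool.Agent.Helper86K9.HK

universe u

variable {k : Type u} [Field k]

/-- The tangent vector. -/
theorem tan_ae (m : ℕ) (hm : 1 ≤ m) :
    Tan (2 * m + 4) (2 * m + 4) (2 * m + 5) (qe k m) (ae k m) := by
  refine tan2 k _ _ _ _ _ (van_qe m) fun T hT hc => ?_
  have hT' : T = range (2 * (m + 2)) :=
    eq_of_subset_of_card_le (by rw [show 2 * (m + 2) = 2 * m + 4 by ring]; exact hT)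
      (by rw [card_range, hc]; omega)
  rw [hT']
  change d1 (range (2 * (m + 2))) (fun r => row (2 * m + 5) (qe k m) (sqx k) r)
    (fun r => row (2 * m + 5) (ae k m) (sqx k) r) = 0
  rw [d1_range_two, prodL_odd, prodL_even]
  choose! c hc using fun i => row_ae_odd (k := k) m hm (sqx k) i
  choose! d hd using fun i => row_ae_even (k := k) m hm (sqx k) i
  rw [← tan_val (Y := YY k) (U := UU k) YY_sq UU_sq hm
    (fun i => row (2 * m + 5) (ae k m) (sqx k) (2 * i + 1))
    (fun i => row (2 * m + 5) (ae k m) (sqx k) (2 * i)) c d (fun i hi => hc i hi)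
    (fun i hi => hd i hi)]
  congr 2
  · refine d1_congr (fun i hi => ?_) (fun _ _ => rfl)
    rw [mem_range] at hi
    exact row_qe_odd m (sqx k) i (by omega)
  · refine d1_congr (fun i hi => ?_) (fun _ _ => rfl)
    rw [mem_range] at hi
    exact row_qe_even m (sqx k) i (by omega)

/-- The substitution `x (2 m + 5) = 0`. -/
noncomputable def xe (k : Type u) [Field k] (m c : ℕ) : Sq k :=
  if c = 2 * m + 5 then 0 else sqx k c

lemma xe_sq (m c : ℕ) : xe k m c * xe k m c = 0 := by
  unfold xe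
  split_ifs
  · simp
  · exact (alg3 k).1 c

lemma pth_congr {S : Type*} [CommRing S] {Y Y' : ℕ → S} {a b : ℕ}
    (h : ∀ j, a ≤ j → j ≤ b → Y j = Y' j) : pth Y a b = pth Y' a b := by
  unfold pth
  refine prod_congr rfl fun j hj => ?_
  rw [mem_Ico] at hj
  rw [h j hj.1 (by omega), h (j + 1) (by omega) (by omega)]

/-- There is no second order point. -/
theorem no_w (h2 : (2 : k) ≠ 0) (m : ℕ) (hm : 1 ≤ m) (w : ℕ → k) :
    ¬ Van (2 * m + 4) (2 * m + 4) (2 * m + 5) (pt2 (qe k m) (ae k m) (ae k m) w) := by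
  intro hv
  have key := tan3 k (Sq k) _ _ _ _ _ _ _ hv (xe k m) (xe_sq m) (range (2 * (m + 2)))
    (by rw [show 2 * (m + 2) = 2 * m + 4 by ring]) (by rw [card_range]; ring)
  set L : ℕ → Sq k := fun r => row (2 * m + 5) (qe k m) (xe k m) r with hL
  set a : ℕ → Sq k := fun r => row (2 * m + 5) (ae k m) (xe k m) r with ha
  change d1 (range (2 * (m + 2))) L (fun r => row (2 * m + 5) w (xe k m) r) +
    d2 (range (2 * (m + 2))) L a a = 0 at key
  set Y : ℕ → Sq k := fun j => xe k m (2 * j + 2) with hYd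
  set U : ℕ → Sq k := fun j => xe k m (2 * j + 1) with hUd
  have hY : ∀ j, Y j * Y j = 0 := fun j => xe_sq m _
  have hU : ∀ j, U j * U j = 0 := fun j => xe_sq m _
  have uz : xe k m (2 * (m + 2) + 1) = 0 := by
    unfold xe
    rw [if_pos (by ring)]
  have uz' : U (m + 2) = 0 := uz
  have po : ∏ i ∈ range (m + 2), L (2 * i + 1) = 0 := by
    simp only [hL]
    rw [prodL_odd]
    change ∏ i ∈ range (m + 2), Lo Y U m i = 0
    rw [Lo_eval m hY, uz', mul_zero]
  have pe : ∏ i ∈ range (m + 2), L (2 * i) = 0 := by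
    simp only [hL]
    rw [prodL_even]
    change ∏ i ∈ range (m + 2), Le U m i = 0
    rw [Le_eval m hU, uz']
    ring
  rw [d1_range_two, d2_range_two _ _ _ _ po pe, po, pe, mul_zero, zero_mul, zero_add,
    zero_add] at key
  have e1 : d1 (range (m + 2)) (fun i => L (2 * i + 1)) (fun i => a (2 * i + 1)) =
      d1 (range (m + 2)) (Ao Y m) (fun i => a (2 * i + 1)) := by
    refine d1_congr (fun i hi => ?_) (fun _ _ => rfl)
    rw [mem_range] at hi
    simp only [hL]
    rw [row_qe_odd m (xe k m) i (by omega)]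
    change Lo Y U m i = Ao Y m i
    unfold Lo
    split_ifs
    · rw [uz', add_zero]
    · rfl
  have e0 : d1 (range (m + 2)) (fun i => L (2 * i)) (fun i => a (2 * i)) =
      d1 (range (m + 2)) (Bo U m) (fun i => a (2 * i)) := by
    refine d1_congr (fun i hi => ?_) (fun _ _ => rfl)
    rw [mem_range] at hi
    simp only [hL]
    rw [row_qe_even m (xe k m) i (by omega)]
    change Le U m i = Bo U m i
    unfold Le
    split_ifs
    · rw [uz', sub_zero]
    · rfl
  have es := second (Y := Y) (U := U) hY hU hm (fun i => a (2 * i + 1)) (fun i => a (2 * i))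
    (fun i hi => by
      obtain ⟨c, hc⟩ := row_ae_odd (k := k) m hm (xe k m) i (by omega)
      simp only [ha]
      rw [hc, uz, mul_zero, add_zero, if_neg (by omega), sub_zero])
    (by
      obtain ⟨c, hc⟩ := row_ae_odd (k := k) m hm (xe k m) (m + 1) le_rfl
      simp only [ha]
      rw [hc, uz, mul_zero, add_zero, if_pos rfl])
    (fun i h1 h2 => by
      obtain ⟨c, hc⟩ := row_ae_even (k := k) m hm (xe k m) i h2
      simp only [ha]
      rw [hc, uz, mul_zero c, add_zero, if_neg (by omega), add_zero])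
    (by
      obtain ⟨c, hc⟩ := row_ae_even (k := k) m hm (xe k m) 0 (by omega)
      simp only [ha]
      rw [hc, uz, mul_zero c, add_zero, if_pos rfl])
  rw [e1, e0, es] at key
  have yy : ∀ j, Y j = YY k j := by
    intro j
    simp only [hYd]
    unfold xe YY
    rw [if_neg (by omega)]
  have uu : ∀ j, j ≤ m + 1 → U j = UU k j := by
    intro j hj
    simp only [hUd]
    unfold xe UU
    rw [if_neg (by omega)]
  have wy : WY Y m = WY (YY k) m := by
    unfold WY
    rw [pth_congr (Y := Y) (Y' := YY k) fun j _ _ => yy j, yy, yy]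
  have wu : WY U m = WY (UU k) m := by
    unfold WY
    rw [pth_congr (Y := U) (Y' := UU k) fun j _ h => uu j h, uu 0 (by omega),
      uu 1 (by omega)]
  rw [wy, wu] at key
  have h3 : algebraMap k (Sq k) 32 * (WY (YY k) m * (UU k (m + 2) * WY (UU k) m)) = 0 := by
    rw [map_ofNat]
    linear_combination (UU k (m + 2)) * key
  have h4 := top_ne m _ h3
  have h5 : (2 : k) ^ 5 = 0 := by
    rw [← h4]
    norm_num
  exact h2 (pow_eq_zero_iff (by norm_num) |>.1 h5)

end Pool.Agent.Helper55K9.HK.Ev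

namespace Pool.Agent.Helper55K9.HK

open Finset Pool.Agent.Helper86K9.HK

universe u

/-- [EVEN] `n = t + 1` with `t = 2 s ≥ 6`. -/
theorem even (k : Type u) [Field k] (h2 : (2 : k) ≠ 0) (s : ℕ) (hs : 3 ≤ s) :
    ¬ (hankelIdeal k (2 * s) (2 * s) (2 * s + 1)).IsPrime := by
  obtain ⟨m, rfl⟩ : ∃ m, s = m + 2 := ⟨s - 2, by omega⟩
  have hm : 1 ≤ m := by omega
  rw [show 2 * (m + 2) + 1 = 2 * m + 5 by ring, show 2 * (m + 2) = 2 * m + 4 by ring]
  refine crit2 k (2 * m + 4) (2 * m + 4) (2 * m + 5) (by omega) le_rfl (by omega)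
    (Ev.qe k m) (Ev.van_qe m) (Ev.BB m) (Ev.card_BB m) ?_ (Ev.ae k m) (Ev.ae k m)
    (Ev.tan_ae m hm) (Ev.tan_ae m hm) (Ev.no_w h2 m hm)
  intro δ hδ hB j h1 h3
  exact Ev.tdim h2 m δ hδ hB j h1 (by omega)

end Pool.Agent.Helper55K9.HK
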