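import Mathlib
import Pool.Agent.Helper55K9.HK.Basic

/-!
`P_2` of a `m × n` Hankel matrix is not prime if `n ≥ 3`.
-/

set_option autoImplicit false

namespace Pool.Agent.Helper55K9.HK.Two

open Matrix Pool.Agent.R831.Perm Pool.Agent.R831.PermIdeal

/-- the variables are not in the ideal -/
lemma X_notMem (k : Type*) [Field k] (m n t : ℕ) (ht : 2 ≤ t) (l : ℕ) (hl : l < m + n - 1) :
    (MvPolynomial.X ⟨l, hl⟩ : MvPolynomial (Fin (m + n - 1)) k) ∉ permIdeal t (hankel k m n) := by
  intro h
  have h1 := dvd_of_mem (k := k) (m := m) (n := n) (t := t) (fun _ => 1) h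
  have h2 : ev k m n (fun l => Polynomial.C (1 : k) * Polynomial.X)
      (MvPolynomial.X ⟨l, hl⟩) = Polynomial.X := by
    simp [ev]
  rw [h2] at h1
  have h5 := Polynomial.degree_le_of_dvd h1 Polynomial.X_ne_zero
  rw [Polynomial.degree_X_pow, Polynomial.degree_X] at h5
  have h6 : t ≤ 1 := by exact_mod_cast h5
  omega

theorem not_prime (k : Type*) [Field k] (h2 : (2 : k) ≠ 0) (m n : ℕ) (hm : 2 ≤ m)
    (hn : 3 ≤ n) : ¬ (permIdeal 2 (hankel k m n)).IsPrime := by
  intro hP
  set I := permIdeal 2 (hankel k m n) with hI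
  let z : ℕ → MvPolynomial (Fin (m + n - 1)) k := fun l =>
    if h : l < m + n - 1 then MvPolynomial.X ⟨l, h⟩ else 0
  have hz : ∀ (i : Fin m) (j : Fin n), hankel k m n i j = z (i.val + j.val) := by
    intro i j
    simp only [z]
    rw [dif_pos (by omega)]
    rfl
  have hz' : ∀ l, l < m + n - 1 → z l ∉ I := by
    intro l hl
    simp only [z]
    rw [dif_pos hl]
    exact X_notMem k m n 2 le_rfl l hl
  -- the generators
  have gen : ∀ a b : ℕ, (hab : a < b) → (hb : b < 3) → z a * z (b + 1) + z (a + 1) * z b ∈ I := by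
    intro a b hab hb
    let r : Fin 2 ↪ Fin m := ⟨fun i => ⟨i.val, by omega⟩, fun a b h => Fin.ext (by
      rw [Fin.mk.injEq] at h; exact h)⟩
    let c : Fin 2 ↪ Fin n := ⟨fun i => if i.val = 0 then ⟨a, by omega⟩ else ⟨b, by omega⟩, by
      intro x y h
      dsimp only at h
      apply Fin.ext
      split_ifs at h with h1 h2 h2
      · omega
      · rw [Fin.mk.injEq] at h; omega
      · rw [Fin.mk.injEq] at h; omega
      · omega⟩
    have h1 := mem_permIdeal (hankel k m n) r c
    have h2 : ((hankel k m n).submatrix r c).permanent = z a * z (b + 1) + z (a + 1) * z b := by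
      have h3 : ∀ M : Matrix (Fin 2) (Fin 2) (MvPolynomial (Fin (m + n - 1)) k),
          M.permanent = M 0 0 * M 1 1 + M 1 0 * M 0 1 := by
        intro M
        unfold permanent
        rw [Fintype.sum_eq_add (1 : Equiv.Perm (Fin 2)) (Equiv.swap 0 1) (by decide)]
        · rw [Fin.prod_univ_two, Fin.prod_univ_two]
          simp
        · intro σ hσ
          have h9 : ∀ τ : Equiv.Perm (Fin 2), τ = 1 ∨ τ = Equiv.swap 0 1 := by decide
          rcases h9 σ with h9 | h9
          · exact absurd h9 hσ.1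
          · exact absurd h9 hσ.2
      rw [h3]
      simp only [submatrix_apply, hz]
      have r0 : (r 0).val = 0 := rfl
      have r1 : (r 1).val = 1 := rfl
      have c0 : (c 0).val = a := rfl
      have c1 : (c 1).val = b := rfl
      rw [r0, r1, c0, c1, zero_add, zero_add, add_comm 1 a, add_comm 1 b]
    rw [h2] at h1
    exact h1
  have g01 := gen 0 1 (by omega) (by omega)
  have g02 := gen 0 2 (by omega) (by omega)
  have g12 := gen 1 2 (by omega) (by omega)
  have h3 : z 1 * (z 2 * z 2 - z 1 * z 3) ∈ I := by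
    have : z 1 * (z 2 * z 2 - z 1 * z 3)
        = z 2 * (z 0 * z (2 + 1) + z (0 + 1) * z 2) - z 3 * (z 0 * z (1 + 1) + z (0 + 1) * z 1) := by
      ring
    rw [this]
    exact I.sub_mem (I.mul_mem_left _ g02) (I.mul_mem_left _ g01)
  rcases hP.mem_or_mem h3 with h | h
  · exact hz' 1 (by omega) h
  · have h4 : MvPolynomial.C (2 : k) * (z 2 * z 2) ∈ I := by
      have : MvPolynomial.C (2 : k) * (z 2 * z 2) = (z 2 * z 2 - z 1 * z 3)
          + (z 1 * z (2 + 1) + z (1 + 1) * z 2) := by
        rw [show (2 : k) = 1 + 1 by norm_num, MvPolynomial.C_add, MvPolynomial.C_1]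
        ring
      rw [this]
      exact I.add_mem h g12
    have h5 : z 2 * z 2 ∈ I := by
      have := I.mul_mem_left (MvPolynomial.C (2 : k)⁻¹) h4
      rwa [← mul_assoc, ← MvPolynomial.C_mul, inv_mul_cancel₀ h2, MvPolynomial.C_1, one_mul] at this
    rcases hP.mem_or_mem h5 with h | h
    · exact hz' 2 (by omega) h
    · exact hz' 2 (by omega) h

end Pool.Agent.Helper55K9.HK.Two
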